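import Pool.Agent.Lib.SmNH.L.Rec
import Pool.Agent.Lib.SmN.L.Sum

/-!
# HEIGHTS over SMITH-U, block L: the conclusion
-/

set_option autoImplicit false

open Finset

namespace Pool.Agent.SmNH

open Pool.Agent.SmN Pool.Agent.SmN.CData

variable {G V V1 Pl M : Type} [Group G] [AddCommGroup V] [DistribMulAction G V]
  [AddCommGroup V1] [Module (ZMod 2) V1] [AddCommGroup M] [DistribMulAction G M]
  {S : Sys G V V1 Pl} {X : PSys} (cd : CData S X) (H : HData V M Pl)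

/-- The number of the large degrees of odd degree of a point is determined by the grid. -/
theorem odd_grid {c : ℝ} {N : ℕ} {Ds : Finset X.Pr} {T : Finset ℕ} (hpre : PSys.GPre N Ds T)
    (x : (t : T) → X.Of t)
    (h : c ≤ Nat.card {P : X.Pr // P ∈ PSys.pt Ds x ∧ N ≤ X.deg P ∧ Odd (X.deg P)}) :
    c ≤ (T.filter fun t => Odd t).card := by
  refine h.trans ?_
  have h1 : Nat.card {P : X.Pr // P ∈ PSys.pt Ds x ∧ N ≤ X.deg P ∧ Odd (X.deg P)} ≤
      Nat.card (T.filter fun t => Odd t) := by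
    refine Nat.card_le_card_of_injective (fun P => ⟨X.deg P.1, ?_⟩) ?_
    · rw [mem_filter]
      exact ⟨(PSys.mem_T hpre).2 ⟨P.2.2.1, P.1, P.2.1, rfl⟩, P.2.2.2⟩
    · rintro ⟨P, hP⟩ ⟨Q, hQ⟩ hPQ
      have h2 : X.deg P = X.deg Q := congrArg Subtype.val hPQ
      obtain ⟨h3, h4⟩ := PSys.eq_of_mem_pt hpre hP.1 hP.2.1
      obtain ⟨h5, h6⟩ := PSys.eq_of_mem_pt hpre hQ.1 hQ.2.1
      apply Subtype.ext
      change P = Q
      rw [← h4, ← h6]
      have h7 : (⟨X.deg P, h3⟩ : T) = ⟨X.deg Q, h5⟩ := Subtype.ext h2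
      rw [h7]
  have h3 : Nat.card (T.filter fun t => Odd t) = (T.filter fun t => Odd t).card := by
    rw [Nat.card_eq_fintype_card, Fintype.card_coe]
  rw [h3] at h1
  exact_mod_cast h1

/-- **Block L.** -/
theorem lHThm [Finite V1] [Nontrivial V1] {Q : ℕ} (hX : X.Ok Q) (hS : S.Ok) (hc : cd.Ok)
    (hL : ∀ (J : Type) (_ : Fintype J) (_ : Nonempty J) (p : J → cd.Mk), cd.PVecN p →
      cd.LFactsN p)
    (hHF : ∀ (J : Type) (_ : Fintype J) (_ : Nonempty J) (p : J → cd.Mk), cd.PVecN p →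
      HFacts cd H p)
    (hfr : FrameRThm cd) (hloc : LocBound cd)
    (hfA : ∀ j, 1 ≤ j → FewTyp cd H j (j - 1)) (hfT : ∀ j, 1 ≤ j → FewTyp cd H j j)
    (hGA : ∀ j, 1 ≤ j → GridThmA cd H Q j) (hGT : ∀ j, 1 ≤ j → GridThmT cd H Q j)
    (c0 : ℝ) (hc0 : 0 < c0) (hK : KHThm X c0) (hJ : ∀ r0, cd.JHThm c0 r0) : LHThm cd H := by
  classical
  intro ε hε
  obtain ⟨g0, hg0, -⟩ := hc.rep 1
  set r0 : {g : G // g ∈ cd.R} := ⟨g0, hg0.1⟩ with hr0
  have : Nonempty {g : G // g ∈ cd.R} := ⟨r0⟩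
  obtain ⟨δ, hδ, s₁, hs₁⟩ := grid_mainH cd H hX hS hc r0 hL hHF hfr hloc hfA hfT hGA hGT c0 hc0
    (hJ r0) (ε / 2) (by positivity)
  refine ⟨s₁, fun s hs => ?_⟩
  obtain ⟨n₀, hn₀⟩ := hs₁ s hs
  obtain ⟨nK, hnK⟩ := hK (ε / 2) δ (by positivity) hδ
  refine ⟨max n₀ nK, fun n hn => ?_⟩
  have hn1 : n₀ ≤ n := le_trans (le_max_left _ _) hn
  have hn2 : nK ≤ n := le_trans (le_max_right _ _) hn
  set Bad : Finset X.Pr → Prop := fun D => ∃ y, IsZ S H (cd.chiD D) s y with hBad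
  set BadO : Finset X.Pr → Prop := fun D => Bad D ∧
    c0 * Real.log n ≤ Nat.card {P : X.Pr // P ∈ D ∧ N0 n ≤ X.deg P ∧ Odd (X.deg P)} with hBadO
  have h1 : (Nat.card {D : Finset X.Pr // X.degS D = n ∧ NiceN X 1 c0 δ n D ∧ BadO D} : ℝ) ≤
      ε / 2 * X.nDD n := by
    refine PSys.grid_count hX BadO (by positivity) fun Ds T hg => ?_
    have hpre : PSys.GPre (N0 n) Ds T := ⟨hg.sml, hg.large⟩
    refine PSys.marks_card (Rr := {g : G // g ∈ cd.R}) hX T (fun y => BadO (PSys.pt Ds y)) ?_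
    by_cases hodd : c0 * Real.log n ≤ (T.filter fun t => Odd t).card
    · refine le_trans ?_ (hn₀ n hn1 Ds T ⟨hg, hodd⟩)
      have hMf : Finite (cd.MPts T) := cd.finite_MPts hX.fin T
      have h3 : Nat.card {x : cd.MPts T // BadO (PSys.pt Ds fun t => (x t).1)} ≤
          Nat.card {x : cd.MPts T // ∃ y, IsZ S H (cd.chiN (cd.vec r0 Ds x)) s y} := by
        refine Nat.card_le_card_of_injective (fun x => ⟨x.1, ?_⟩) ?_
        · have h4 := cd.chiD_pt hpre r0 x.1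
          have h5 : ∃ y, IsZ S H (cd.chiD (PSys.pt Ds fun t => (x.1 t).1)) s y := x.2.1
          rw [h4] at h5
          exact h5
        · intro x x' h
          exact Subtype.ext (congrArg (fun z => z.1) h)
      exact_mod_cast h3
    · have h3 : IsEmpty {x : cd.MPts T // BadO (PSys.pt Ds fun t => (x t).1)} :=
        ⟨fun x => hodd (odd_grid hpre (fun t => (x.1 t).1) x.2.2)⟩
      have h4 : (Nat.card {x : cd.MPts T // BadO (PSys.pt Ds fun t => (x t).1)} : ℝ) = 0 := by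
        rw [Nat.card_eq_zero.2 (Or.inl h3), Nat.cast_zero]
      exact h4.le.trans (by positivity)
  have hF : Finite {D : Finset X.Pr // X.degS D = n} :=
    Finite.of_injective (β := PSys.Dn hX n) (fun D => ⟨D.1, PSys.mem_Dn.2 D.2⟩)
      fun D D' h => Subtype.ext (congrArg (fun z : PSys.Dn hX n => z.1) h)
  have h8 : Nat.card {D : Finset X.Pr // X.degS D = n ∧ Bad D} ≤
      Nat.card {D : Finset X.Pr // X.degS D = n ∧ ¬ NiceNH X c0 δ n D} +
      Nat.card {D : Finset X.Pr // X.degS D = n ∧ NiceN X 1 c0 δ n D ∧ BadO D} := by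
    have hFs : {D : Finset X.Pr | X.degS D = n}.Finite := Set.finite_coe_iff.1 hF
    have e1 : {D : Finset X.Pr | X.degS D = n ∧ Bad D} ⊆
        {D : Finset X.Pr | X.degS D = n ∧ ¬ NiceNH X c0 δ n D} ∪
        {D : Finset X.Pr | X.degS D = n ∧ NiceN X 1 c0 δ n D ∧ BadO D} := by
      rintro D ⟨hD1, hD2⟩
      by_cases hN : NiceNH X c0 δ n D
      · exact Or.inr ⟨hD1, hN.nice, hD2, hN.odd⟩
      · exact Or.inl ⟨hD1, hN⟩
    have e2 := Set.ncard_le_ncard e1 ((hFs.subset fun D h => h.1).union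
      (hFs.subset fun D h => h.1))
    exact le_trans e2 (Set.ncard_union_le _ _)
  have h9 := hnK n hn2
  calc (Nat.card {D : Finset X.Pr // X.degS D = n ∧ ∃ y, IsZ S H (cd.chiD D) s y} : ℝ)
      ≤ (Nat.card {D : Finset X.Pr // X.degS D = n ∧ ¬ NiceNH X c0 δ n D} : ℝ) +
      Nat.card {D : Finset X.Pr // X.degS D = n ∧ NiceN X 1 c0 δ n D ∧ BadO D} := by
        exact_mod_cast h8
    _ ≤ ε / 2 * X.nDD n + ε / 2 * X.nDD n := add_le_add h9 h1
    _ = ε * X.nDD n := by ring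

end Pool.Agent.SmNH
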