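import Pool.Agent.Lib.SmN.L.LevelSum

/-!
# HEIGHTS over SMITH-U, block L: averaging over the big blocks of a grid, abstract form
-/

set_option autoImplicit false

open Finset

namespace Pool.Agent.SmNH

open Pool.Agent.SmN Pool.Agent.SmN.CData

variable {G V V1 Pl : Type} [Group G] [AddCommGroup V] [DistribMulAction G V]
  [AddCommGroup V1] [Module (ZMod 2) V1] {S : Sys G V V1 Pl} {X : PSys} (cd : CData S X)

/-- The points with a small big class in one of the directions. -/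
def SmD (q : ℕ) (r0 : {g : G // g ∈ cd.R}) (Ds : Finset X.Pr) (T : Finset ℕ) {m : ℕ}
    (d : Dir m ↪ JG Ds T) : Set (cd.MPts T) :=
  {x | (∀ i, ∃ t, d i = Sum.inr t) ∧ ∃ i, (Nat.card (cd.XB (cd.vec r0 Ds x) d i) : ℝ) <
    (q : ℝ) ^ (9 * X.deg (cd.vec r0 Ds x (d i)).1 / 10)}

theorem card_SmD_le [Finite V1] {q : ℕ} (hX : X.Ok q) (hS : S.Ok) (hc : cd.Ok)
    (r0 : {g : G // g ∈ cd.R}) (m : ℕ) (ε' : ℝ) (hε' : 0 < ε') :
    ∃ n₀ : ℕ, ∀ n ≥ n₀, ∀ (Ds : Finset X.Pr) (T : Finset ℕ),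
      ((Ds.card + T.card : ℕ) : ℝ) ≤ 2 * Real.log n → (∀ t ∈ T, N0 n ≤ t) →
      ∀ d : Dir m ↪ JG Ds T,
        (Nat.card (SmD cd q r0 Ds T d) : ℝ) ≤ (m + 2) * ε' * Nat.card (cd.MPts T) := by
  classical
  obtain ⟨n2, hn2⟩ := cd.small_le hX hS hc r0 m ε' hε'
  refine ⟨n2, fun n hn Ds T hfew hlarge d => ?_⟩
  have hMf : Finite (cd.MPts T) := cd.finite_MPts hX.fin T
  by_cases hd : ∀ i, ∃ t, d i = Sum.inr t
  · choose t ht using hd
    have h1 : (Nat.card (SmD cd q r0 Ds T d) : ℝ) ≤ ∑ i : Dir m, (Nat.card {x : cd.MPts T //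
        (Nat.card (cd.XB (cd.vec r0 Ds x) d i) : ℝ) < (q : ℝ) ^ (9 * (t i : ℕ) / 10)} : ℝ) := by
      rw [← Nat.cast_sum, ← Nat.card_sigma]
      have h2 : Nat.card (SmD cd q r0 Ds T d) ≤ Nat.card (Σ i : Dir m, {x : cd.MPts T //
        (Nat.card (cd.XB (cd.vec r0 Ds x) d i) : ℝ) < (q : ℝ) ^ (9 * (t i : ℕ) / 10)}) := by
        refine Nat.card_le_card_of_injective (fun x => ⟨x.2.2.choose, x.1, ?_⟩) ?_
        · have h3 := x.2.2.choose_spec
          rw [ht, cd.deg_inr r0] at h3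
          exact h3
        · intro x y hxy
          rw [Sigma.mk.injEq] at hxy
          obtain ⟨h3, h4⟩ := hxy
          apply Subtype.ext
          have h5 : ∀ (i j : Dir m) (a : {x : cd.MPts T //
              (Nat.card (cd.XB (cd.vec r0 Ds x) d i) : ℝ) < (q : ℝ) ^ (9 * (t i : ℕ) / 10)})
              (b : {x : cd.MPts T //
              (Nat.card (cd.XB (cd.vec r0 Ds x) d j) : ℝ) < (q : ℝ) ^ (9 * (t j : ℕ) / 10)}),
              i = j → HEq a b → a.1 = b.1 := by
            rintro i j a b rfl h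
            rw [eq_of_heq h]
          exact h5 _ _ _ _ h3 h4
      exact_mod_cast h2
    refine h1.trans ?_
    have h6 : ∀ i : Dir m, (Nat.card {x : cd.MPts T //
        (Nat.card (cd.XB (cd.vec r0 Ds x) d i) : ℝ) < (q : ℝ) ^ (9 * (t i : ℕ) / 10)} : ℝ) ≤
        ε' * Nat.card (cd.MPts T) := fun i =>
      hn2 n hn Ds T hfew hlarge d i (t i) (ht i)
    refine (Finset.sum_le_sum fun i _ => h6 i).trans ?_
    rw [Finset.sum_const, nsmul_eq_mul, Finset.card_univ, Fintype.card_option,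
      Fintype.card_option, Fintype.card_fin]
    push_cast
    apply le_of_eq
    ring
  · have h1 : SmD cd q r0 Ds T d = ∅ := by
      ext x
      constructor
      · rintro ⟨h2, _⟩
        exact absurd h2 hd
      · exact fun h => absurd h (Set.notMem_empty x)
    rw [h1, Nat.card_of_isEmpty, Nat.cast_zero]
    positivity

/-- The conditions on a grid. -/
structure GCond (X : PSys) (c0 : ℝ) (n : ℕ) (Ds : Finset X.Pr) (T : Finset ℕ) : Prop where
  deg : X.degS Ds + ∑ t ∈ T, t = n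
  few : ((Ds.card + T.card : ℕ) : ℝ) ≤ 2 * Real.log n
  large : ∀ t ∈ T, N0 n ≤ t
  sml : ∀ P ∈ Ds, X.deg P < N0 n
  many : c0 * Real.log n ≤ T.card

/-- The directions of an admissible choice satisfy `DirOk`. -/
theorem dirOk_of_lsp {c0 : ℝ} (r0 : {g : G // g ∈ cd.R}) {n : ℕ} {Ds : Finset X.Pr}
    {T : Finset ℕ} (hg : GCond X c0 n Ds T) {m : ℕ} (x : cd.MPts T) (d : Dir m ↪ JG Ds T)
    (hd : ∀ i, d i ∈ cd.Lsp (cd.vec r0 Ds x) (N0 n)) : cd.DirOk (cd.vec r0 Ds x) d := by
  have hJc : Nat.card (JG Ds T) = Ds.card + T.card := by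
    rw [Nat.card_sum, Nat.card_eq_fintype_card, Nat.card_eq_fintype_card, Fintype.card_coe,
      Fintype.card_coe]
  have hdegx : cd.degN (cd.vec r0 Ds x) = n := by
    rw [cd.degN_vecL r0 x, hg.deg]
  refine ⟨cd.pvec_vec r0 hg.large hg.sml x, ?_, fun i => ?_, fun i j hij => ?_,
    fun i => (hd i).2⟩
  · rw [hdegx, hJc]
    exact hg.few
  · rw [hdegx]
    exact (hd i).1
  · obtain ⟨t, ht⟩ : ∃ t, d i = Sum.inr t := by
      rcases h : d i with P | t
      · exfalso
        have h1 := (hd i).1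
        rw [h] at h1
        exact absurd (hg.sml P.1 P.2) (not_lt.mpr h1)
      · exact ⟨t, rfl⟩
    rw [ht, cd.deg_inr r0] at hij
    rcases j with P | u
    · exfalso
      have h1 : X.deg P.1 = t := hij
      have h2 := hg.sml P.1 P.2
      rw [h1] at h2
      exact absurd (hg.large t.1 t.2) (not_le.mpr h2)
    · rw [cd.deg_inr r0] at hij
      rw [ht]
      exact congrArg Sum.inr (Subtype.ext hij)

open Classical in
/-- The data of the averaging argument on one grid. -/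
structure AvgD (q : ℕ) (r0 : {g : G // g ∈ cd.R}) (n : ℕ) (Ds : Finset X.Pr) (T : Finset ℕ)
    [Fintype (cd.MPts T)] (m : ℕ) (K B η : ℝ) (C c : ℕ) (AB : Type) (typ : cd.MPts T → Prop)
    (cond : AB → cd.MPts T → Prop) (gg : AB → cd.MPts T → ℝ)
    (Sc : AB → cd.MPts T → Set (Dir m ↪ JG Ds T))
    (E : (Dir m ↪ JG Ds T) → cd.MPts T → cd.MPts T → Prop) : Prop where
  refl : ∀ d x, E d x x
  symm : ∀ d x y, E d x y → E d y x
  trans : ∀ d a x, typ x → cond a x → d ∈ Sc a x → ∀ y y' z,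
    cd.SameB (cd.vec r0 Ds x) (cd.vec r0 Ds y) d → cd.SameB (cd.vec r0 Ds x) (cd.vec r0 Ds y') d →
    cd.SameB (cd.vec r0 Ds x) (cd.vec r0 Ds z) d → E d y y' → E d y' z → E d y z
  inv : ∀ d a x, typ x → cond a x → d ∈ Sc a x → ∀ y,
    cd.SameB (cd.vec r0 Ds x) (cd.vec r0 Ds y) d → E d x y →
    typ y ∧ cond a y ∧ Sc a y = Sc a x
  lsp : ∀ d a x, typ x → cond a x → d ∈ Sc a x → ∀ i, d i ∈ cd.Lsp (cd.vec r0 Ds x) (N0 n)
  few : ∀ d a x, typ x → cond a x → d ∈ Sc a x → ∃ f : cd.MPts T → Fin C, ∀ y y',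
    cd.SameB (cd.vec r0 Ds x) (cd.vec r0 Ds y) d → cd.SameB (cd.vec r0 Ds x) (cd.vec r0 Ds y') d →
    f y = f y' → E d y y'
  sc : ∀ a x, typ x → cond a x → c ≤ Nat.card (Sc a x)
  bd : ∀ a x, typ x → |gg a x| ≤ B
  num : ∀ x, typ x → (Nat.card {a // cond a x} : ℝ) ≤ K
  blk : ∀ d a x, typ x → cond a x → d ∈ Sc a x →
    (∀ i, (q : ℝ) ^ (9 * X.deg (cd.vec r0 Ds x (d i)).1 / 10) ≤
      Nat.card (cd.XB (cd.vec r0 Ds x) d i)) →
    |∑ y with cd.SameB (cd.vec r0 Ds x) (cd.vec r0 Ds y) d ∧ E d x y, gg a y| ≤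
      η * Nat.card {y : cd.MPts T // cd.SameB (cd.vec r0 Ds x) (cd.vec r0 Ds y) d}

open Classical in
/-- The averaging argument on one grid. -/
theorem avg_grid {q : ℕ} (r0 : {g : G // g ∈ cd.R}) {n : ℕ} {Ds : Finset X.Pr}
    {T : Finset ℕ} [Fintype (cd.MPts T)] {m : ℕ} {K B η ε' : ℝ} (hK : 0 ≤ K) (hB : 1 ≤ B)
    (hη : 0 ≤ η) {C c : ℕ} (hc0 : 0 < c) {AB : Type} [Fintype AB] {typ : cd.MPts T → Prop}
    {cond : AB → cd.MPts T → Prop} {gg : AB → cd.MPts T → ℝ}
    {Sc : AB → cd.MPts T → Set (Dir m ↪ JG Ds T)}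
    {E : (Dir m ↪ JG Ds T) → cd.MPts T → cd.MPts T → Prop} (hsml : ∀ P ∈ Ds, X.deg P < N0 n)
    (hsm : ∀ d : Dir m ↪ JG Ds T, (Nat.card (SmD cd q r0 Ds T d) : ℝ) ≤
      ε' * Nat.card (cd.MPts T))
    (h : AvgD cd q r0 n Ds T m K B η C c AB typ cond gg Sc E) :
    |∑ x, if typ x then ∑ a, (if cond a x then gg a x else 0) else 0| ≤
      Nat.card (Dir m ↪ JG Ds T) * (K * B / c * (C * η + ε')) * Nat.card (cd.MPts T) := by
  have hB0 : 0 < B := by linarith
  let rr : (Dir m ↪ JG Ds T) → Setoid (cd.MPts T) := fun d =>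
    { r := fun x y => cd.SameB (cd.vec r0 Ds x) (cd.vec r0 Ds y) d
      iseqv := ⟨fun _ => SameB.refl cd, fun h => h.symm cd, fun h h' => h.trans cd h'⟩ }
  let cl : (Dir m ↪ JG Ds T) → cd.MPts T → Set (cd.MPts T) := fun d x =>
    {y | cd.SameB (cd.vec r0 Ds x) (cd.vec r0 Ds y) d ∧ E d x y}
  let g : AB → cd.MPts T → ℝ := fun a x => if typ x then gg a x / B else 0
  let coef : (Dir m ↪ JG Ds T) → AB → cd.MPts T → ℝ := fun d a x =>
    if typ x ∧ cond a x ∧ d ∈ Sc a x then B / Nat.card (Sc a x) else 0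
  have hne : ∀ d a x, coef d a x ≠ 0 → typ x ∧ cond a x ∧ d ∈ Sc a x := by
    intro d a x h1
    by_contra h2
    exact h1 (if_neg h2)
  -- equal classes
  have hcl : ∀ d x y, cl d x = cl d y → E d x y ∧ E d y x := by
    intro d x y hxy
    have h1 : y ∈ cl d y := ⟨SameB.refl cd, h.refl d y⟩
    have h2 : x ∈ cl d x := ⟨SameB.refl cd, h.refl d x⟩
    rw [← hxy] at h1
    rw [hxy] at h2
    exact ⟨h1.2, h2.2⟩
  have hcl' : ∀ d a x, typ x → cond a x → d ∈ Sc a x → ∀ y y',
      cd.SameB (cd.vec r0 Ds x) (cd.vec r0 Ds y) d →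
      cd.SameB (cd.vec r0 Ds x) (cd.vec r0 Ds y') d → E d y y' → cl d y = cl d y' := by
    intro d a x h1 h2 h3 y y' hy hy' hyy
    ext z
    constructor
    · rintro ⟨h4, h5⟩
      exact ⟨((hy'.symm cd).trans cd hy).trans cd h4,
        h.trans d a x h1 h2 h3 y' y z hy' hy (hy.trans cd h4) (h.symm _ _ _ hyy) h5⟩
    · rintro ⟨h4, h5⟩
      exact ⟨((hy.symm cd).trans cd hy').trans cd h4,
        h.trans d a x h1 h2 h3 y y' z hy hy' (hy'.trans cd h4) hyy h5⟩
  have hcoefe : ∀ d a x y, cd.SameB (cd.vec r0 Ds x) (cd.vec r0 Ds y) d → E d x y →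
      coef d a x ≠ 0 → coef d a y = coef d a x := by
    intro d a x y hxy hE h1
    obtain ⟨h2, h3, h4⟩ := hne d a x h1
    obtain ⟨h5, h6, h7⟩ := h.inv d a x h2 h3 h4 y hxy hE
    change (if typ y ∧ cond a y ∧ d ∈ Sc a y then B / (Nat.card (Sc a y) : ℝ) else 0) =
      (if typ x ∧ cond a x ∧ d ∈ Sc a x then B / (Nat.card (Sc a x) : ℝ) else 0)
    rw [if_pos ⟨h5, h6, by rw [h7]; exact h4⟩, if_pos ⟨h2, h3, h4⟩, h7]
  have hmain := block_avg rr cl g (fun a x => by
      change |if typ x then gg a x / B else 0| ≤ 1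
      split_ifs with h1
      · rw [abs_div, abs_of_pos hB0, div_le_one hB0]
        exact h.bd a x h1
      · rw [abs_zero]
        exact zero_le_one)
    coef (fun d a x y hxy hk => by
      obtain ⟨h1, h2⟩ := hcl d x y hk
      by_cases hx0 : coef d a x = 0
      · by_cases hy0 : coef d a y = 0
        · rw [hx0, hy0]
        · exact hcoefe d a y x (SameB.symm cd hxy) h2 hy0
      · exact (hcoefe d a x y hxy h1 hx0).symm)
    (K * B / c) η ε' (by positivity) hη C
    (fun d x => by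
      by_cases ht : typ x
      · have hterm : ∀ a, |coef d a x| ≤ if cond a x then B / c else 0 := by
          intro a
          change |if typ x ∧ cond a x ∧ d ∈ Sc a x then B / (Nat.card (Sc a x) : ℝ) else 0| ≤ _
          by_cases h1 : cond a x
          · rw [if_pos h1]
            have h2 : (c : ℝ) ≤ Nat.card (Sc a x) := by exact_mod_cast h.sc a x ht h1
            have h3 : (0 : ℝ) < c := by exact_mod_cast hc0
            split_ifs with h4
            · rw [abs_of_nonneg (by positivity)]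
              exact div_le_div_of_nonneg_left hB0.le h3 h2
            · rw [abs_zero]
              positivity
          · rw [if_neg h1, if_neg fun h4 => h1 h4.2.1, abs_zero]
        refine (Finset.sum_le_sum fun a _ => hterm a).trans ?_
        rw [← Finset.sum_filter, Finset.sum_const, nsmul_eq_mul]
        have h5 := h.num x ht
        rw [Nat.card_eq_fintype_card, Fintype.card_subtype] at h5
        calc _ ≤ K * (B / c) := mul_le_mul_of_nonneg_right h5 (by positivity)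
          _ = _ := by ring
      · have h1 : ∀ a, coef d a x = 0 := fun a => if_neg fun h1 => ht h1.1
        simp only [h1, abs_zero, Finset.sum_const_zero]
        positivity)
    (fun d x => by
      by_cases hex : ∃ y, cd.SameB (cd.vec r0 Ds x) (cd.vec r0 Ds y) d ∧ ∃ a, coef d a y ≠ 0
      · obtain ⟨y0, hy0, a0, ha0⟩ := hex
        obtain ⟨h1, h2, h3⟩ := hne d a0 y0 ha0
        obtain ⟨f, hf⟩ := h.few d a0 y0 h1 h2 h3
        have hFin : Nat.card (Fin C) = C := by rw [Nat.card_eq_fintype_card, Fintype.card_fin]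
        rw [← hFin]
        refine Nat.card_le_card_of_injective (fun k => f k.2.choose) ?_
        rintro k k' hkk
        have e1 := k.2.choose_spec
        have e2 := k'.2.choose_spec
        simp only at hkk
        have e3 : cd.SameB (cd.vec r0 Ds y0) (cd.vec r0 Ds k.2.choose) d :=
          SameB.trans cd (SameB.symm cd hy0) e1.1
        have e4 : cd.SameB (cd.vec r0 Ds y0) (cd.vec r0 Ds k'.2.choose) d :=
          SameB.trans cd (SameB.symm cd hy0) e2.1
        have e5 := hcl' d a0 y0 h1 h2 h3 _ _ e3 e4 (hf _ _ e3 e4 hkk)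
        apply Subtype.ext
        rw [← e1.2.1, ← e2.2.1]
        exact e5
      · have : IsEmpty {k // ∃ y, (rr d).r x y ∧ cl d y = k ∧ ∃ a, coef d a y ≠ 0} :=
          ⟨fun k => hex (by
            obtain ⟨y, h1, -, h2⟩ := k.2
            exact ⟨y, h1, h2⟩)⟩
        rw [Nat.card_of_isEmpty]
        exact Nat.zero_le _)
    (fun d => SmD cd q r0 Ds T d) (fun d x y hxy => by
      have h1 : ∀ i, Nat.card (cd.XB (cd.vec r0 Ds x) d i) =
          Nat.card (cd.XB (cd.vec r0 Ds y) d i) := fun i => SameB.card_XB cd hxy i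
      constructor
      · rintro ⟨h2, i, h3⟩
        refine ⟨h2, i, ?_⟩
        rw [← h1, hxy.deg]
        exact h3
      · rintro ⟨h2, i, h3⟩
        refine ⟨h2, i, ?_⟩
        rw [h1, ← hxy.deg]
        exact h3)
    hsm
    (fun d a x hx ha => by
      obtain ⟨h1, h2, h3⟩ := hne d a x ha
      have hlsp := h.lsp d a x h1 h2 h3
      have hdt : ∀ i, ∃ t, d i = Sum.inr t := by
        intro i
        rcases hh : d i with P | t
        · exfalso
          have h4 := (hlsp i).1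
          rw [hh] at h4
          exact absurd (hsml P.1 P.2) (not_lt.mpr h4)
        · exact ⟨t, rfl⟩
      have hbig : ∀ i, (q : ℝ) ^ (9 * X.deg (cd.vec r0 Ds x (d i)).1 / 10) ≤
          Nat.card (cd.XB (cd.vec r0 Ds x) d i) := by
        intro i
        by_contra h4
        exact hx ⟨hdt, i, not_le.mp h4⟩
      have h5 := h.blk d a x h1 h2 h3 hbig
      have h6 : ∑ y with (rr d).r x y ∧ cl d y = cl d x, g a y =
          (∑ y with cd.SameB (cd.vec r0 Ds x) (cd.vec r0 Ds y) d ∧ E d x y, gg a y) / B := by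
        rw [Finset.sum_div]
        have h7 : (Finset.univ.filter fun y => (rr d).r x y ∧ cl d y = cl d x) =
            (Finset.univ.filter fun y =>
              cd.SameB (cd.vec r0 Ds x) (cd.vec r0 Ds y) d ∧ E d x y) := by
          ext y
          rw [Finset.mem_filter, Finset.mem_filter]
          constructor
          · rintro ⟨h8, h9, h10⟩
            exact ⟨h8, h9, (hcl d y x h10).2⟩
          · rintro ⟨h8, h9, h10⟩
            exact ⟨h8, h9, (hcl' d a x h1 h2 h3 x y (SameB.refl cd) h9 h10).symm⟩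
        rw [h7]
        refine Finset.sum_congr rfl fun y hy => ?_
        obtain ⟨-, h8, h9⟩ := Finset.mem_filter.1 hy
        exact if_pos (h.inv d a x h1 h2 h3 y h8 h9).1
      have h10 : |(∑ y with cd.SameB (cd.vec r0 Ds x) (cd.vec r0 Ds y) d ∧ E d x y, gg a y) / B| ≤
          η * Nat.card {y : cd.MPts T // cd.SameB (cd.vec r0 Ds x) (cd.vec r0 Ds y) d} := by
        rw [abs_div, abs_of_pos hB0, div_le_iff₀ hB0]
        refine h5.trans ?_
        exact le_mul_of_one_le_right (by positivity) hB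
      refine le_trans (le_of_eq (congrArg _ (Eq.trans (Finset.sum_congr ?_ fun _ _ => rfl) h6)))
        h10
      ext y
      rw [Finset.mem_filter, Finset.mem_filter])
  refine le_trans (le_of_eq ?_) hmain
  congr 1
  refine Finset.sum_congr rfl fun x _ => ?_
  by_cases ht : typ x
  · rw [if_pos ht, Finset.sum_comm]
    refine Finset.sum_congr rfl fun a _ => ?_
    rw [← Finset.sum_mul]
    change _ = _ * (if typ x then gg a x / B else 0)
    rw [if_pos ht]
    by_cases h1 : cond a x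
    · rw [if_pos h1]
      have h2 : ∑ d : Dir m ↪ JG Ds T, coef d a x = B := by
        have h3 : ∀ d : Dir m ↪ JG Ds T, coef d a x =
            if d ∈ Sc a x then B / (Nat.card (Sc a x) : ℝ) else 0 := by
          intro d
          change (if typ x ∧ cond a x ∧ d ∈ Sc a x then B / (Nat.card (Sc a x) : ℝ) else 0) = _
          by_cases h4 : d ∈ Sc a x
          · rw [if_pos ⟨ht, h1, h4⟩, if_pos h4]
          · rw [if_neg fun h => h4 h.2.2, if_neg h4]
        rw [Finset.sum_congr rfl fun d _ => h3 d, ← Finset.sum_filter, Finset.sum_const,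
          nsmul_eq_mul]
        have h5 : (Finset.univ.filter fun d : Dir m ↪ JG Ds T => d ∈ Sc a x).card =
            Nat.card (Sc a x) := by
          rw [Nat.card_eq_fintype_card, Fintype.card_subtype]
        rw [h5]
        have h6 : (Nat.card (Sc a x) : ℝ) ≠ 0 := by
          have := h.sc a x ht h1
          have h7 : 0 < Nat.card (Sc a x) := by omega
          exact_mod_cast h7.ne'
        field_simp
      rw [h2]
      field_simp
    · rw [if_neg h1]
      have h2 : ∀ d : Dir m ↪ JG Ds T, coef d a x = 0 := fun d => if_neg fun h => h1 h.2.1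
      rw [Finset.sum_congr rfl fun d _ => h2 d, Finset.sum_const_zero, zero_mul]
  · rw [if_neg ht]
    symm
    refine Finset.sum_eq_zero fun d _ => Finset.sum_eq_zero fun a _ => ?_
    have h2 : coef d a x = 0 := if_neg fun h => ht h.1
    rw [h2, zero_mul]

/-- The numerical conclusion. -/
theorem avg_num (m : ℕ) {K B ρ η' c0 : ℝ} (hK : 0 < K) (hB : 1 ≤ B) (hρ : 0 < ρ) (hη' : 0 < η')
    (hc0 : 0 < c0) (C : ℕ) :
    ∃ η ε' : ℝ, 0 < η ∧ 0 < ε' ∧ ∃ n₀ : ℕ, ∀ n ≥ n₀, ∀ (Ds : Finset X.Pr) (T : Finset ℕ),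
      GCond X c0 n Ds T → 0 < (⌈ρ * Nat.card (JG Ds T)⌉₊ - (m + 2)) ^ (m + 2) ∧
      Nonempty (JG Ds T) ∧
      Nat.card (Dir m ↪ JG Ds T) * (K * B / ((⌈ρ * Nat.card (JG Ds T)⌉₊ - (m + 2)) ^ (m + 2) : ℕ) *
        (C * η + (m + 2) * ε')) ≤ η' := by
  have hB0 : 0 < B := by linarith
  set K1 : ℝ := (2 / ρ) ^ (m + 2) * (K * B) with hK1
  have hK1p : 0 < K1 := by positivity
  set η : ℝ := η' / (2 * K1 * (C + 1)) with hη
  have hηp : 0 < η := by positivity
  set ε'' : ℝ := η' / (2 * K1 * (m + 2)) with hε''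
  have hεp : 0 < ε'' := by positivity
  obtain ⟨n3, hn3⟩ : ∃ n3 : ℕ, ∀ n ≥ n3, 2 * ((m : ℝ) + 2) / ρ + 1 ≤ c0 * Real.log n := by
    have h1 : Filter.Tendsto (fun n : ℕ => c0 * Real.log n) Filter.atTop Filter.atTop :=
      (Real.tendsto_log_atTop.comp tendsto_natCast_atTop_atTop).const_mul_atTop hc0
    exact Filter.eventually_atTop.1 (h1.eventually_ge_atTop _)
  refine ⟨η, ε'', hηp, hεp, n3, fun n hn Ds T hg => ?_⟩
  have hTc : 2 * ((m : ℝ) + 2) / ρ + 1 ≤ T.card := (hn3 n hn).trans hg.many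
  have hJc : Nat.card (JG Ds T) = Ds.card + T.card := by
    rw [Nat.card_sum, Nat.card_eq_fintype_card, Nat.card_eq_fintype_card, Fintype.card_coe,
      Fintype.card_coe]
  set nJ : ℕ := Nat.card (JG Ds T) with hnJ
  have hTJ : (T.card : ℝ) ≤ nJ := by
    rw [hJc]
    push_cast
    have : (0 : ℝ) ≤ (Ds.card : ℝ) := Nat.cast_nonneg _
    linarith
  have hJ1 : 2 * ((m : ℝ) + 2) ≤ ρ * nJ := by
    have h1 : 2 * ((m : ℝ) + 2) / ρ ≤ nJ := by linarith
    rw [div_le_iff₀ hρ] at h1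
    linarith [mul_comm (nJ : ℝ) ρ]
  have hJpos : 0 < nJ := by
    have h1 : (0 : ℝ) < nJ := by
      have : (0 : ℝ) ≤ 2 * ((m : ℝ) + 2) / ρ := by positivity
      linarith
    exact_mod_cast h1
  obtain ⟨hcpos, hcle⟩ := num_dir (m := m) hρ hJ1 hJpos
  set c : ℕ := (⌈ρ * nJ⌉₊ - (m + 2)) ^ (m + 2) with hcdef
  refine ⟨hcpos, (Nat.card_pos_iff.1 hJpos).1, ?_⟩
  have hDr : (Nat.card (Dir m ↪ JG Ds T) : ℝ) ≤ (nJ : ℝ) ^ (m + 2) := by
    have h1 : Nat.card (Dir m ↪ JG Ds T) ≤ Nat.card (Dir m → JG Ds T) :=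
      Nat.card_le_card_of_injective (fun f => (f : Dir m → JG Ds T)) DFunLike.coe_injective
    rw [Nat.card_fun, Nat.card_eq_fintype_card (α := Dir m), Fintype.card_option,
      Fintype.card_option, Fintype.card_fin, ← hnJ] at h1
    exact_mod_cast h1
  have hcR : (0 : ℝ) < c := by exact_mod_cast hcpos
  have h7 : (C : ℝ) * η + (m + 2) * ε'' ≤ η' / K1 := by
    have h8 : (C : ℝ) * η ≤ η' / (2 * K1) := by
      rw [hη, ← mul_div_assoc, div_le_div_iff₀ (by positivity) (by positivity)]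
      have : (0 : ℝ) ≤ C := Nat.cast_nonneg _
      nlinarith [mul_pos hη' hK1p]
    have h9 : ((m : ℝ) + 2) * ε'' = η' / (2 * K1) := by
      rw [hε'']
      field_simp
    rw [h9]
    have h10 : η' / K1 = η' / (2 * K1) + η' / (2 * K1) := by
      field_simp
      ring
    rw [h10]
    linarith
  have h8 : 0 ≤ (C : ℝ) * η + (m + 2) * ε'' := by positivity
  calc (Nat.card (Dir m ↪ JG Ds T) : ℝ) * (K * B / c * ((C : ℝ) * η + (m + 2) * ε''))
      ≤ (nJ : ℝ) ^ (m + 2) * (K * B / c * ((C : ℝ) * η + (m + 2) * ε'')) :=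
        mul_le_mul_of_nonneg_right hDr (by positivity)
    _ = ((nJ : ℝ) ^ (m + 2) / c) * (K * B * ((C : ℝ) * η + (m + 2) * ε'')) := by ring
    _ ≤ (2 / ρ) ^ (m + 2) * (K * B * ((C : ℝ) * η + (m + 2) * ε'')) :=
        mul_le_mul_of_nonneg_right (by exact_mod_cast hcle) (by positivity)
    _ = K1 * ((C : ℝ) * η + (m + 2) * ε'') := by rw [hK1]; ring
    _ ≤ K1 * (η' / K1) := mul_le_mul_of_nonneg_left h7 hK1p.le
    _ = η' := by field_simp

end Pool.Agent.SmNH
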