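import Pool.Agent.Lib.SmNH.StmtI
import Pool.Agent.Lib.SmN.L.VecL

/-!
# HEIGHTS over SMITH-U, block L: the equivalence relation on a big block
-/

set_option autoImplicit false

open Finset

namespace Pool.Agent.SmNH

open Pool.Agent.SmN Pool.Agent.SmN.CData

variable {G V V1 Pl M : Type} [Group G] [AddCommGroup V] [DistribMulAction G V]
  [AddCommGroup V1] [Module (ZMod 2) V1] [AddCommGroup M] [DistribMulAction G M]
  {S : Sys G V V1 Pl} {X : PSys}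

theorem isPr_mono {chi : G → ZMod 2} {i j : ℕ} (hij : i ≤ j) {y : (G → V) × (Pl → V)}
    (h : IsPr S chi i y) : IsPr S chi j y := by
  refine ⟨⟨h.sel.tf, h.sel.coc, fun s => ?_, h.sel.loc⟩, h.loc, h.off⟩
  obtain ⟨r, rfl⟩ := Nat.exists_eq_add_of_le hij
  rw [pow_add, mul_comm, mul_smul, h.sel.lev s, smul_zero]

variable (cd : CData S X) (H : HData V M Pl) {J : Type} [Fintype J]

section iso

variable {cd H} {j jp : ℕ} {p p' p'' : J → cd.Mk}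

theorem IsoH.refl (p : J → cd.Mk) : IsoH cd H j jp p p Eq where
  lev y y' h i hi := by rw [h]
  left y _ := ⟨y, rfl⟩
  right y _ := ⟨y, rfl⟩
  add y1 y1' y2 y2' h1 h2 := by rw [h1, h2]
  tor z _ := rfl
  loc y _ _ := rfl
  top y y' h i _ _ a := by rw [h]
  pair y y' h _ b _ := by rw [h]
  qq y y' h _ := by rw [h]

theorem IsoH.trans (hjp : jp ≤ j) (hS : cd.SelpN p = cd.SelpN p')
    {Th Th' : (G → V) × (Pl → V) → (G → V) × (Pl → V) → Prop}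
    (h : IsoH cd H j jp p p' Th) (h' : IsoH cd H j jp p' p'' Th') :
    IsoH cd H j jp p p'' fun y z => ∃ y', Th y y' ∧ Th' y' z where
  lev := by
    rintro y z ⟨y', h1, h2⟩ i hi
    exact (h.lev y y' h1 i hi).trans (h'.lev y' z h2 i hi)
  left y hy := by
    obtain ⟨y', h1⟩ := h.left y hy
    obtain ⟨z, h2⟩ := h'.left y' ((h.lev y y' h1 j le_rfl).1 hy)
    exact ⟨z, y', h1, h2⟩
  right z hz := by
    obtain ⟨y', h2⟩ := h'.right z hz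
    obtain ⟨y, h1⟩ := h.right y' ((h'.lev y' z h2 j le_rfl).2 hz)
    exact ⟨y, y', h1, h2⟩
  add := by
    rintro y1 z1 y2 z2 ⟨y1', h1, h1'⟩ ⟨y2', h2, h2'⟩
    exact ⟨y1' + y2', h.add _ _ _ _ h1 h2, h'.add _ _ _ _ h1' h2'⟩
  tor z hz := ⟨_, h.tor z hz, h'.tor z hz⟩
  loc y hy h0 := by
    have h1 := h.loc y hy h0
    exact ⟨y, h1, h'.loc y ((h.lev y y h1 j le_rfl).1 hy) h0⟩
  top := by
    rintro y z ⟨y', h1, h2⟩ i hi1 hi2 a
    exact (h.top y y' h1 i hi1 hi2 a).trans (h'.top y' z h2 i hi1 hi2 a)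
  pair := by
    rintro y z ⟨y', h1, h2⟩ hy b hb
    have hb' : b ∈ cd.SelpN p' := hS ▸ hb
    rw [h'.pair y' z h2 ((h.lev y y' h1 jp hjp).1 hy) b hb', h.pair y y' h1 hy b hb]
  qq := by
    rintro y z ⟨y', h1, h2⟩ hy
    rw [h'.qq y' z h2 ((h.lev y y' h1 j le_rfl).1 hy), h.qq y y' h1 hy]

theorem DirEq.refl {m : ℕ} (dir : Dir m ↪ J) (p : J → cd.Mk) : cd.DirEq dir p p :=
  ⟨fun _ _ _ => rfl, fun _ _ _ _ => rfl, fun _ _ => rfl⟩

theorem DirEq.symm {m : ℕ} {dir : Dir m ↪ J} (h : cd.DirEq dir p p') : cd.DirEq dir p' p :=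
  ⟨fun i l hil => (h.ch i l hil).symm, fun i l hil w => (h.be i l hil w).symm,
    fun i w => (h.self i w).symm⟩

theorem DirEq.trans {m : ℕ} {dir : Dir m ↪ J} (h : cd.DirEq dir p p')
    (h' : cd.DirEq dir p' p'') : cd.DirEq dir p p'' :=
  ⟨fun i l hil => (h.ch i l hil).trans (h'.ch i l hil),
    fun i l hil w => (h.be i l hil w).trans (h'.be i l hil w),
    fun i w => (h.self i w).trans (h'.self i w)⟩

theorem TypEqH.refl {m : ℕ} (dir : Dir m ↪ J) (p : J → cd.Mk) : TypEqH cd H dir j jp p p :=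
  ⟨DirEq.refl dir p, ⟨_, IsoH.refl p⟩, ⟨_, IsoH.refl p⟩⟩

theorem TypEqH.symm {m : ℕ} {dir : Dir m ↪ J} (h : TypEqH cd H dir j jp p p') :
    TypEqH cd H dir j jp p' p := ⟨DirEq.symm h.1, h.2.2, h.2.1⟩

theorem TypEqH.trans {m : ℕ} {dir : Dir m ↪ J} (hjp : jp ≤ j) (hS : cd.SelpN p = cd.SelpN p')
    (hS' : cd.SelpN p' = cd.SelpN p'') (h : TypEqH cd H dir j jp p p')
    (h' : TypEqH cd H dir j jp p' p'') : TypEqH cd H dir j jp p p'' := by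
  obtain ⟨h1, ⟨T1, h2⟩, ⟨T2, h3⟩⟩ := h
  obtain ⟨h1', ⟨T1', h2'⟩, ⟨T2', h3'⟩⟩ := h'
  exact ⟨DirEq.trans h1 h1', ⟨_, h2.trans hjp hS h2'⟩, ⟨_, h3'.trans hjp hS'.symm h3⟩⟩

/-- The flag is the same on a class. -/
theorem IsoH.lh_sub (hjp : jp ≤ j) (hS : cd.SelpN p = cd.SelpN p') (hF : cd.FN p = cd.FN p')
    {Th : (G → V) × (Pl → V) → (G → V) × (Pl → V) → Prop} (h : IsoH cd H j jp p p' Th)
    (hp : HFacts cd H p) (hp' : HFacts cd H p') {i : ℕ} (hi : i ≤ jp + 1) :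
    LH cd p i ⊆ LH cd p' i := by
  match i with
  | 0 => exact hF.subset
  | 1 => exact hF.subset
  | i + 2 =>
    intro a ha
    obtain ⟨y, hy, hy0⟩ := (hp.succ (i + 1) (by omega) a).1 ha
    have hyj : IsPr S (cd.chiN p) j y := isPr_mono (by omega) hy.1
    obtain ⟨y', hyy⟩ := h.left y hyj
    refine (hp'.succ (i + 1) (by omega) a).2 ⟨y', ?_, fun b hb => ?_⟩
    · exact (h.top y y' hyy (i + 1) (by omega) (by omega) a).1 hy
    · have hb' : b ∈ cd.SelpN p := hS ▸ hb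
      rw [h.pair y y' hyy (isPr_mono (by omega) hy.1) b hb']
      exact hy0 b hb'

theorem TypEqH.lh_eq {m : ℕ} {dir : Dir m ↪ J} (hjp : jp ≤ j) (hS : cd.SelpN p = cd.SelpN p')
    (hF : cd.FN p = cd.FN p') (h : TypEqH cd H dir j jp p p') (hp : HFacts cd H p)
    (hp' : HFacts cd H p') {i : ℕ} (hi : i ≤ jp + 1) : LH cd p i = LH cd p' i := by
  obtain ⟨-, ⟨T1, h2⟩, ⟨T2, h3⟩⟩ := h
  exact Set.Subset.antisymm (h2.lh_sub hjp hS hF hp hp' hi)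
    (h3.lh_sub hjp hS.symm hF.symm hp' hp hi)

end iso

section w

variable {m : ℕ}

/-- What `FrameRThm` gives for two vectors of one block. -/
structure FrEq (p p' : J → cd.Mk) : Prop where
  selp : cd.SelpN p = cd.SelpN p'
  fn : cd.FN p = cd.FN p'
  w : ∀ a ∈ cd.SelpN p, ∀ w : cd.CodeN J,
    (cd.ValidN p w ∧ ∀ l, cd.InhN p w a l) ↔ (cd.ValidN p' w ∧ ∀ l, cd.InhN p' w a l)

theorem FrEq.symm {p p' : J → cd.Mk} (h : FrEq cd p p') : FrEq cd p' p :=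
  ⟨h.selp.symm, h.fn.symm, fun a ha w => (h.w a (h.selp ▸ ha) w).symm⟩

theorem frEq_of_sameB (hfr : FrameRThm cd) {p x y : J → cd.Mk} {dir : Dir m ↪ J}
    (hd : cd.DirOk p dir) (hx : cd.SameB p x dir) (hy : cd.SameB p y dir)
    (h : cd.DirEq dir x y) : FrEq cd x y := by
  obtain ⟨z, hz⟩ := SameB.eq_replN cd hx
  obtain ⟨z', hz'⟩ := SameB.eq_replN cd hy
  have h1 := hfr J inferInstance m p dir hd z z'
  rw [← hz, ← hz'] at h1
  obtain ⟨h2, h3, h4⟩ := h1 h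
  exact ⟨h2, h3, h4⟩

theorem typHN_congr (hc : cd.Ok) {p p' : J → cd.Mk} {dir : Dir m ↪ J}
    (hb : cd.SameB p p' dir) (h : FrEq cd p p') {R N : ℕ} {ρ : ℝ} (ht : cd.TypHN p R ρ N) :
    cd.TypHN p' R ρ N := by
  have hA := SameB.lsp cd hc hb N
  have hA' : ∀ j, (N ≤ X.deg (p' j).1 ∧ cd.Split (p' j)) ↔
      (N ≤ X.deg (p j).1 ∧ cd.Split (p j)) := fun j => by
    have h1 : j ∈ cd.Lsp p' N ↔ j ∈ cd.Lsp p N := by rw [hA]
    exact h1
  refine ⟨⟨?_, ?_⟩, ?_⟩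
  · rw [← h.selp]
    exact ht.typ.small
  · intro r c hc' hi w
    refine (ht.typ.generic r c (fun i => by rw [h.selp]; exact hc' i) hi w).trans (le_of_eq ?_)
    congr 1
    exact Nat.card_congr (Equiv.subtypeEquivRight fun j =>
      ⟨fun ⟨h1, h2, h3⟩ => ⟨((hA' j).2 ⟨h1, h2⟩).1, ((hA' j).2 ⟨h1, h2⟩).2, h3⟩,
        fun ⟨h1, h2, h3⟩ => ⟨((hA' j).1 ⟨h1, h2⟩).1, ((hA' j).1 ⟨h1, h2⟩).2, h3⟩⟩)
  · intro r c w hc' hi hv hw v v'
    have h0 : c 0 ∈ cd.SelpN p := by rw [h.selp]; exact hc' 0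
    have h1 := (h.w (c 0) h0 w).2 ⟨hv, hw⟩
    refine (ht.genericH r c w (fun i => by rw [h.selp]; exact hc' i) hi h1.1 h1.2 v v').trans
      (le_of_eq ?_)
    congr 1
    exact Nat.card_congr (Equiv.subtypeEquivRight fun j =>
      ⟨fun ⟨h1, h2, h3⟩ => ⟨((hA' j).2 ⟨h1, h2⟩).1, ((hA' j).2 ⟨h1, h2⟩).2, h3⟩,
        fun ⟨h1, h2, h3⟩ => ⟨((hA' j).1 ⟨h1, h2⟩).1, ((hA' j).1 ⟨h1, h2⟩).2, h3⟩⟩)

end w

end Pool.Agent.SmNH
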