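import Pool.Agent.Lib.SmNH.L.Sc
import Pool.Agent.Lib.SmNH.L.Abs
import Pool.Agent.Lib.SmN.L.Rec

/-!
# HEIGHTS over SMITH-U, block L: the sums of the signs of Theorem A and Theorem T over a grid
-/

set_option autoImplicit false

open Finset

namespace Pool.Agent.SmNH

open Pool.Agent.SmN Pool.Agent.SmN.CData

variable {G V V1 Pl M : Type} [Group G] [AddCommGroup V] [DistribMulAction G V]
  [AddCommGroup V1] [Module (ZMod 2) V1] [AddCommGroup M] [DistribMulAction G M]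
  {S : Sys G V V1 Pl} {X : PSys} (cd : CData S X) (H : HData V M Pl)

section one

variable {J : Type} [Fintype J]

/-- The conditions of the two sums. -/
def CondA (p : J → cd.Mk) (j : ℕ) (ab : cd.CodeN J × cd.CodeN J) : Prop :=
  ab.1 ∈ LH cd p j ∧ ab.2 ∈ cd.SelpN p ∧ cd.Indep2N ab.1 ab.2

def CondT (p : J → cd.Mk) (j : ℕ) (a : cd.CodeN J) : Prop :=
  (a ∈ LH cd p (j + 1) ∧ ∀ z, a ≠ cd.kapN J z) ∧
    ∃ w : cd.CodeN J, cd.ValidN p w ∧ ∀ l, cd.InhN p w a l

open Classical in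
/-- The part of the recursion with the pairing. -/
noncomputable def totA (p : J → cd.Mk) (j : ℕ) : ℝ :=
  ∑ᶠ ab : cd.CodeN J × cd.CodeN J,
    if ab.1 ∈ LH cd p j ∧ ab.2 ∈ cd.SelpN p ∧ cd.Indep2N ab.1 ab.2 then
      NAH cd H p j ab.1 ab.2 else 0

open Classical in
/-- The part of the recursion with the height form. -/
noncomputable def totT (p : J → cd.Mk) (j : ℕ) : ℝ :=
  ∑ᶠ a : cd.CodeN J,
    if a ∈ LH cd p (j + 1) ∧ (∀ z, a ≠ cd.kapN J z) then NTH cd H p j a else 0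

variable {cd H}

theorem abs_finsum_le {α : Type} [Finite α] (f : α → ℝ) (h : ∀ x, |f x| ≤ 1) :
    |∑ᶠ x, f x| ≤ Nat.card α := by
  have := Fintype.ofFinite α
  rw [finsum_eq_sum_of_fintype, Nat.card_eq_fintype_card]
  refine (Finset.abs_sum_le_sum_abs _ _).trans ?_
  refine (Finset.sum_le_sum fun x _ => h x).trans ?_
  rw [Finset.sum_const, nsmul_eq_mul, mul_one, Finset.card_univ]

theorem abs_NAH_le {p : J → cd.Mk} (hp : HFacts cd H p) (j : ℕ) (a b : cd.CodeN J) :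
    |NAH cd H p j a b| ≤ Nat.card {y : (G → V) × (Pl → V) // IsPr S (cd.chiN p) j y} := by
  have h1 := hp.fin j
  let f : {y : (G → V) × (Pl → V) // AbvH cd p j a y ∧ q S H (cd.chiN p) j y = 0} →
      {y : (G → V) × (Pl → V) // IsPr S (cd.chiN p) j y} := fun y => ⟨y.1, y.2.1.1⟩
  have hf : Function.Injective f := fun y y' h => Subtype.ext (congrArg (fun z => z.1) h)
  have h2 := Finite.of_injective f hf
  refine (abs_finsum_le _ fun y => ?_).trans (by
    exact_mod_cast Nat.card_le_card_of_injective f hf)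
  rw [abs_pow, abs_neg, abs_one, one_pow]

theorem abs_NTH_le {p : J → cd.Mk} (hp : HFacts cd H p) (j : ℕ) (a : cd.CodeN J) :
    |NTH cd H p j a| ≤ Nat.card {y : (G → V) × (Pl → V) // IsPr S (cd.chiN p) (j + 1) y} := by
  have h1 := hp.fin (j + 1)
  let f : {y : (G → V) × (Pl → V) // AbvH cd p (j + 1) a y ∧
      q S H (cd.chiN p) j ((2 : ℕ) • y) = 0} →
      {y : (G → V) × (Pl → V) // IsPr S (cd.chiN p) (j + 1) y} := fun y => ⟨y.1, y.2.1.1⟩
  have hf : Function.Injective f := fun y y' h => Subtype.ext (congrArg (fun z => z.1) h)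
  have h2 := Finite.of_injective f hf
  refine (abs_finsum_le _ fun y => ?_).trans (by
    exact_mod_cast Nat.card_le_card_of_injective f hf)
  split_ifs
  · rw [abs_one]
  · rw [abs_neg, abs_one]

theorem lh_sub_selpN (p : J → cd.Mk) (i : ℕ) : LH cd p i ⊆ cd.SelpN p :=
  (cd.lflN_sub p i).trans (cd.FN_sub_SelpN p)

/-- The number of the rigid elements of a typical vector. -/
theorem card_isPr_le [Finite V1] {C1 : ℕ} {p : J → cd.Mk} (hv : cd.PVecN p)
    (hL : cd.LFactsN p) (hloc : ∀ i, Nat.card {y : (G → V) × (Pl → V) //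
      IsPr S (cd.chiN p) i y} ≤ C1 * cd.nZN p i) {R N : ℕ} {ρ : ℝ} (ht : cd.TypN p R ρ N)
    {i j : ℕ} (hij : i ≤ j) :
    (Nat.card {y : (G → V) × (Pl → V) // IsPr S (cd.chiN p) i y} : ℝ) ≤
      (C1 + 1) * ((2 : ℝ) ^ R) ^ j := by
  have h1 := cd.nZN_le hL (TypN.typF cd ht).small i
  have h2 := (hloc i).trans (Nat.mul_le_mul_left C1 h1)
  have h3 : (2 ^ R) ^ i ≤ (2 ^ R) ^ j := Nat.pow_le_pow_right (by positivity) hij
  have h4 : Nat.card {y : (G → V) × (Pl → V) // IsPr S (cd.chiN p) i y} ≤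
      (C1 + 1) * (2 ^ R) ^ j :=
    h2.trans (Nat.mul_le_mul (Nat.le_succ _) h3)
  exact_mod_cast h4

theorem card_condA_le [Finite V1] {p : J → cd.Mk} {R N : ℕ} {ρ : ℝ} (ht : cd.TypN p R ρ N)
    (j : ℕ) : (Nat.card {ab // CondA cd p j ab} : ℝ) ≤ ((2 : ℝ) ^ R) ^ 2 := by
  have h1 : Nat.card {ab // CondA cd p j ab} ≤ Nat.card (cd.SelpN p × cd.SelpN p) :=
    Nat.card_le_card_of_injective
      (fun ab => (⟨ab.1.1, lh_sub_selpN p j ab.2.1⟩, ⟨ab.1.2, ab.2.2.1⟩)) (by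
        intro ab ab' h
        rw [Prod.mk.injEq, Subtype.mk.injEq, Subtype.mk.injEq] at h
        exact Subtype.ext (Prod.ext h.1 h.2))
  rw [Nat.card_prod] at h1
  have h2 := h1.trans (Nat.mul_le_mul ht.small ht.small)
  rw [← pow_two] at h2
  exact_mod_cast h2

theorem card_condT_le [Finite V1] {p : J → cd.Mk} {R N : ℕ} {ρ : ℝ} (ht : cd.TypN p R ρ N)
    (j : ℕ) : (Nat.card {a // CondT cd p j a} : ℝ) ≤ ((2 : ℝ) ^ R) ^ 2 := by
  have h1 : Nat.card {a // CondT cd p j a} ≤ Nat.card (cd.SelpN p) :=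
    Nat.card_le_card_of_injective
      (fun a => ⟨a.1, lh_sub_selpN p (j + 1) a.2.1.1⟩) (by
        intro a a' h
        rw [Subtype.mk.injEq] at h
        exact Subtype.ext h)
  have h2 := h1.trans ht.small
  have h3 : 2 ^ R ≤ (2 ^ R) ^ 2 := by
    rw [pow_two]
    exact Nat.le_mul_of_pos_left _ (by positivity)
  exact_mod_cast h2.trans h3

end one

section block

variable {cd H}
variable (r0 : {g : G // g ∈ cd.R}) {Ds : Finset X.Pr} {T : Finset ℕ} {m : ℕ}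

open Classical in
/-- Sums over a block. -/
theorem block_sum [Finite (cd.MPts T)] [Fintype (cd.MPts T)] (x : cd.MPts T)
    (dir : Dir m ↪ JG Ds T) (hd : ∀ i, ∃ t, dir i = Sum.inr t)
    (P : (JG Ds T → cd.Mk) → Prop) (F : (JG Ds T → cd.Mk) → ℝ) :
    (∑ᶠ z : (i : Dir m) → cd.XB (cd.vec r0 Ds x) dir i,
        if P (cd.replN (cd.vec r0 Ds x) dir fun i => (z i).1) then
          F (cd.replN (cd.vec r0 Ds x) dir fun i => (z i).1) else 0) =
      ∑ y with cd.SameB (cd.vec r0 Ds x) (cd.vec r0 Ds y) dir ∧ P (cd.vec r0 Ds y),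
        F (cd.vec r0 Ds y) := by
  set e := cd.blockEquiv r0 x dir hd with he
  have hfb : Finite ((i : Dir m) → cd.XB (cd.vec r0 Ds x) dir i) := Finite.of_equiv _ e
  have : Fintype ((i : Dir m) → cd.XB (cd.vec r0 Ds x) dir i) := Fintype.ofFinite _
  rw [finsum_eq_sum_of_fintype, ← Equiv.sum_comp e]
  have h2 : ∀ y : {y : cd.MPts T // cd.SameB (cd.vec r0 Ds x) (cd.vec r0 Ds y) dir},
      (if P (cd.replN (cd.vec r0 Ds x) dir fun i => (e y i).1) then
        F (cd.replN (cd.vec r0 Ds x) dir fun i => (e y i).1) else 0) =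
      (if P (cd.vec r0 Ds y.1) then F (cd.vec r0 Ds y.1) else 0) := by
    intro y
    rw [he, cd.replN_blockEquiv r0 x dir hd y]
  rw [Finset.sum_congr rfl fun y _ => h2 y]
  rw [← Finset.filter_filter, Finset.sum_filter]
  have h4 := Finset.sum_subtype (p := fun y => cd.SameB (cd.vec r0 Ds x) (cd.vec r0 Ds y) dir)
    (F := inferInstance)
    (Finset.univ.filter fun y => cd.SameB (cd.vec r0 Ds x) (cd.vec r0 Ds y) dir)
    (fun y => by
      rw [Finset.mem_filter]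
      exact ⟨fun h => h.2, fun h => ⟨Finset.mem_univ _, h⟩⟩)
    (fun y => if P (cd.vec r0 Ds y) then F (cd.vec r0 Ds y) else 0)
  convert h4.symm

theorem card_block (x : cd.MPts T) (dir : Dir m ↪ JG Ds T)
    (hd : ∀ i, ∃ t, dir i = Sum.inr t) :
    (Nat.card {y : cd.MPts T // cd.SameB (cd.vec r0 Ds x) (cd.vec r0 Ds y) dir} : ℝ) =
      ∏ i, (Nat.card (cd.XB (cd.vec r0 Ds x) dir i) : ℝ) := by
  rw [Nat.card_congr (cd.blockEquiv r0 x dir hd), Nat.card_pi]
  push_cast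
  rfl

theorem dir_inr {n : ℕ} (hsml : ∀ P ∈ Ds, X.deg P < N0 n) {x : cd.MPts T}
    {d : Dir m ↪ JG Ds T} (hlsp : ∀ i, d i ∈ cd.Lsp (cd.vec r0 Ds x) (N0 n)) (i : Dir m) :
    ∃ t, d i = Sum.inr t := by
  rcases hh : d i with P | t
  · exfalso
    have h4 := (hlsp i).1
    rw [hh] at h4
    exact absurd (hsml P.1 P.2) (not_lt.mpr h4)
  · exact ⟨t, rfl⟩

open Classical in
/-- The labels of `FewTyp` on the points of a block. -/
theorem few_block {j jp : ℕ} {R C : ℕ}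
    (hC : ∀ (J : Type) (_ : Fintype J) (p : J → cd.Mk) (dir : Dir j ↪ J),
      cd.DirOk p dir → Nat.card (cd.SelpN p) ≤ 2 ^ R →
      ∃ f : ((i : Dir j) → cd.XB p dir i) → Fin C, ∀ x x', f x = f x' →
        TypEqH cd H dir j jp (cd.replN p dir fun i => (x i).1) (cd.replN p dir fun i => (x' i).1))
    (x : cd.MPts T) (d : Dir j ↪ JG Ds T) (hd : ∀ i, ∃ t, d i = Sum.inr t)
    (hok : cd.DirOk (cd.vec r0 Ds x) d) (hR : Nat.card (cd.SelpN (cd.vec r0 Ds x)) ≤ 2 ^ R) :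
    ∃ f : cd.MPts T → Fin C, ∀ y y',
      cd.SameB (cd.vec r0 Ds x) (cd.vec r0 Ds y) d →
      cd.SameB (cd.vec r0 Ds x) (cd.vec r0 Ds y') d → f y = f y' →
      TypEqH cd H d j jp (cd.vec r0 Ds y) (cd.vec r0 Ds y') := by
  obtain ⟨f, hf⟩ := hC _ inferInstance (cd.vec r0 Ds x) d hok hR
  set e := cd.blockEquiv r0 x d hd with he
  refine ⟨fun y => if h : cd.SameB (cd.vec r0 Ds x) (cd.vec r0 Ds y) d then f (e ⟨y, h⟩) else
    f (e ⟨x, SameB.refl cd⟩), fun y y' hy hy' h => ?_⟩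
  simp only [dif_pos hy, dif_pos hy'] at h
  have h1 := hf _ _ h
  rw [he, cd.replN_blockEquiv r0 x d hd ⟨y, hy⟩, cd.replN_blockEquiv r0 x d hd ⟨y', hy'⟩] at h1
  exact h1

end block

section level

variable [Finite V1] [Nontrivial V1] {Q : ℕ} (hX : X.Ok Q) (hS : S.Ok) (hc : cd.Ok)
  (r0 : {g : G // g ∈ cd.R})
  (hL : ∀ (J : Type) (_ : Fintype J) (_ : Nonempty J) (p : J → cd.Mk), cd.PVecN p →
    cd.LFactsN p)
  (hHF : ∀ (J : Type) (_ : Fintype J) (_ : Nonempty J) (p : J → cd.Mk), cd.PVecN p →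
    HFacts cd H p)
  (hfr : FrameRThm cd) (hloc : LocBound cd)

include hX hS hc hL hHF hfr hloc

open Classical in
/-- **The sum of Theorem A over a grid.** -/
theorem level_sumA (j : ℕ) (hj : 1 ≤ j) (hfew : FewTyp cd H j (j - 1))
    (hG : GridThmA cd H Q j) (c0 : ℝ) (hc0 : 0 < c0) (R : ℕ) (ρ : ℝ)
    (hρ : 0 < ρ) (η' : ℝ) (hη' : 0 < η') :
    ∃ n₀ : ℕ, ∀ n ≥ n₀, ∀ (Ds : Finset X.Pr) (T : Finset ℕ), GCond X c0 n Ds T →
      |∑ᶠ x : {x : cd.MPts T // cd.TypHN (cd.vec r0 Ds x) R ρ (N0 n)},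
        totA cd H (cd.vec r0 Ds x.1) j| ≤ η' * Nat.card (cd.MPts T) := by
  obtain ⟨C1, hC1⟩ := hloc
  obtain ⟨C, hC⟩ := hfew R
  set B : ℝ := (C1 + 1) * ((2 : ℝ) ^ R) ^ (j + 1) with hB
  have hR1 : (1 : ℝ) ≤ (2 : ℝ) ^ R := one_le_pow₀ (by norm_num)
  have hB1 : 1 ≤ B := by
    have h1 : (1 : ℝ) ≤ ((2 : ℝ) ^ R) ^ (j + 1) := one_le_pow₀ hR1
    have h2 : (0 : ℝ) ≤ C1 := Nat.cast_nonneg _
    rw [hB]
    nlinarith
  set K : ℝ := ((2 : ℝ) ^ R) ^ 2 with hK
  have hK0 : 0 < K := by positivity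
  obtain ⟨η, ε', hη, hε', n3, hn3⟩ := avg_num (X := X) j hK0 hB1 hρ hη' hc0 C
  obtain ⟨n1, hn1⟩ := hG R η hη
  obtain ⟨n2, hn2⟩ := card_SmD_le cd hX hS hc r0 j ε' hε'
  refine ⟨max n1 (max n2 n3), fun n hn Ds T hg => ?_⟩
  have hnn1 : n1 ≤ n := le_trans (le_max_left _ _) hn
  have hnn2 : n2 ≤ n := le_trans (le_trans (le_max_left _ _) (le_max_right _ _)) hn
  have hnn3 : n3 ≤ n := le_trans (le_trans (le_max_right _ _) (le_max_right _ _)) hn
  obtain ⟨hcpos, hneJ, hnum⟩ := hn3 n hnn3 Ds T hg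
  have hMf : Finite (cd.MPts T) := cd.finite_MPts hX.fin T
  have hMF : Fintype (cd.MPts T) := Fintype.ofFinite _
  have hABF : Fintype (cd.CodeN (JG Ds T) × cd.CodeN (JG Ds T)) := Fintype.ofFinite _
  have hpv : ∀ x : cd.MPts T, cd.PVecN (cd.vec r0 Ds x) := fun x =>
    cd.pvec_vec r0 hg.large hg.sml x
  have hLx : ∀ x : cd.MPts T, cd.LFactsN (cd.vec r0 Ds x) := fun x =>
    hL _ inferInstance hneJ _ (hpv x)
  have hHx : ∀ x : cd.MPts T, HFacts cd H (cd.vec r0 Ds x) := fun x =>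
    hHF _ inferInstance hneJ _ (hpv x)
  have hdegx : ∀ x : cd.MPts T, cd.degN (cd.vec r0 Ds x) = n := fun x => by
    rw [cd.degN_vecL r0 x, hg.deg]
  let typ : cd.MPts T → Prop := fun x => cd.TypHN (cd.vec r0 Ds x) R ρ (N0 n)
  let cond : cd.CodeN (JG Ds T) × cd.CodeN (JG Ds T) → cd.MPts T → Prop := fun ab x =>
    CondA cd (cd.vec r0 Ds x) j ab
  let gg : cd.CodeN (JG Ds T) × cd.CodeN (JG Ds T) → cd.MPts T → ℝ := fun ab x =>
    NAH cd H (cd.vec r0 Ds x) j ab.1 ab.2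
  let Sc : cd.CodeN (JG Ds T) × cd.CodeN (JG Ds T) → cd.MPts T → Set (Dir j ↪ JG Ds T) :=
    fun ab x => ScA cd (cd.SelpN (cd.vec r0 Ds x)) (LH cd (cd.vec r0 Ds x))
      (cd.Lsp (cd.vec r0 Ds x) (N0 n)) j ab.1 ab.2
  let E : (Dir j ↪ JG Ds T) → cd.MPts T → cd.MPts T → Prop := fun d x y =>
    TypEqH cd H d j (j - 1) (cd.vec r0 Ds x) (cd.vec r0 Ds y)
  have hok : ∀ (x : cd.MPts T) (d : Dir j ↪ JG Ds T),
      (∀ i, d i ∈ cd.Lsp (cd.vec r0 Ds x) (N0 n)) → cd.DirOk (cd.vec r0 Ds x) d :=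
    fun x d hd => dirOk_of_lsp cd r0 hg x d hd
  have hA : AvgD cd Q r0 n Ds T j K B η C ((⌈ρ * Nat.card (JG Ds T)⌉₊ - (j + 2)) ^ (j + 2))
      (cd.CodeN (JG Ds T) × cd.CodeN (JG Ds T)) typ cond gg Sc E :=
    { refl := fun d x => TypEqH.refl d _
      symm := fun d x y h => h.symm
      trans := fun d a x ht hcd hd y y' z hy hy' hz h h' => by
        have h1 := frEq_of_sameB cd hfr (hok x d hd.1) hy hy' h.1
        have h2 := frEq_of_sameB cd hfr (hok x d hd.1) hy' hz h'.1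
        exact TypEqH.trans (Nat.sub_le _ _) h1.selp h2.selp h h'
      inv := fun d a x ht hcd hd y hy h => by
        have h1 := frEq_of_sameB cd hfr (hok x d hd.1) (SameB.refl cd) hy h.1
        have h2 : ∀ i, i ≤ j → LH cd (cd.vec r0 Ds x) i = LH cd (cd.vec r0 Ds y) i :=
          fun i hi => TypEqH.lh_eq (Nat.sub_le _ _) h1.selp h1.fn h (hHx x) (hHx y) (by omega)
        refine ⟨typHN_congr cd hc hy h1 ht, ?_, ?_⟩
        · change CondA cd (cd.vec r0 Ds y) j a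
          refine ⟨?_, ?_, hcd.2.2⟩
          · rw [← h2 j le_rfl]
            exact hcd.1
          · rw [← h1.selp]
            exact hcd.2.1
        · exact (scA_congr cd h1.selp (fun i _ hi => h2 i hi) (SameB.lsp cd hc hy (N0 n))
            a.1 a.2).symm
      lsp := fun d a x ht hcd hd => hd.1
      few := fun d a x ht hcd hd =>
        few_block r0 hC x d (dir_inr r0 hg.sml hd.1) (hok x d hd.1) ht.typ.small
      sc := fun a x ht hcd => by
        obtain ⟨Bs⟩ := (hHx x).basisA j hj a.1 hcd.1 a.2 hcd.2.1 hcd.2.2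
        exact card_ScA_ge cd hS ht.typ Bs
      bd := fun a x ht => (abs_NAH_le (hHx x) j a.1 a.2).trans
        (card_isPr_le (hpv x) (hLx x) (fun i => hC1 _ inferInstance _ (hpv x) i) ht.typ
          (Nat.le_succ j))
      num := fun x ht => card_condA_le ht.typ j
      blk := fun d a x ht hcd hd hbig => by
        have hdt := dir_inr r0 hg.sml hd.1
        have h1 := hn1 _ inferInstance (cd.vec r0 Ds x) a.1 a.2 d (hok x d hd.1)
          (by rw [hdegx]; exact hnn1) ht.typ.small hcd.1 hd.2 hbig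
        rw [block_sum r0 x d hdt (fun p' => TypEqH cd H d j (j - 1) (cd.vec r0 Ds x) p')
          (fun p' => NAH cd H p' j a.1 a.2), ← card_block r0 x d hdt] at h1
        exact h1 }
  have hmain := avg_grid cd r0 hK0.le hB1 hη.le hcpos hg.sml
    (fun d => hn2 n hnn2 Ds T hg.few hg.large d) hA
  have hsum : ∑ᶠ x : {x : cd.MPts T // cd.TypHN (cd.vec r0 Ds x) R ρ (N0 n)},
        totA cd H (cd.vec r0 Ds x.1) j =
      ∑ x, if typ x then ∑ a, (if cond a x then gg a x else 0) else 0 := by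
    have h1 : ∀ x : cd.MPts T, (if typ x then ∑ a, (if cond a x then gg a x else 0) else 0) =
        if typ x then totA cd H (cd.vec r0 Ds x) j else 0 := by
      intro x
      by_cases ht : typ x
      · rw [if_pos ht, if_pos ht]
        unfold totA
        rw [finsum_eq_sum_of_fintype]
        refine Finset.sum_congr rfl fun a _ => ?_
        by_cases h2 : cond a x
        · have h3 : a.1 ∈ LH cd (cd.vec r0 Ds x) j ∧ a.2 ∈ cd.SelpN (cd.vec r0 Ds x) ∧
            cd.Indep2N a.1 a.2 := h2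
          rw [if_pos h2, if_pos h3]
        · have h3 : ¬ (a.1 ∈ LH cd (cd.vec r0 Ds x) j ∧ a.2 ∈ cd.SelpN (cd.vec r0 Ds x) ∧
            cd.Indep2N a.1 a.2) := h2
          rw [if_neg h2, if_neg h3]
      · rw [if_neg ht, if_neg ht]
    rw [Finset.sum_congr rfl fun x _ => h1 x, ← Finset.sum_filter, finsum_eq_sum_of_fintype]
    have h4 : ∀ y : cd.MPts T, y ∈ Finset.univ.filter (fun x : cd.MPts T => typ x) ↔
        cd.TypHN (cd.vec r0 Ds y) R ρ (N0 n) := fun _ =>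
      ⟨fun h => (Finset.mem_filter.1 h).2, fun h => Finset.mem_filter.2 ⟨Finset.mem_univ _, h⟩⟩
    exact (Finset.sum_subtype _ h4 (fun x => totA cd H (cd.vec r0 Ds x) j)).symm
  rw [hsum]
  exact hmain.trans (mul_le_mul_of_nonneg_right hnum (Nat.cast_nonneg _))

open Classical in
/-- **The sum of Theorem T over a grid.** -/
theorem level_sumT (j : ℕ) (hj : 1 ≤ j) (hfew : FewTyp cd H j j)
    (hG : GridThmT cd H Q j) (c0 : ℝ) (hc0 : 0 < c0) (R : ℕ) (ρ : ℝ)
    (hρ : 0 < ρ) (η' : ℝ) (hη' : 0 < η') :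
    ∃ n₀ : ℕ, ∀ n ≥ n₀, ∀ (Ds : Finset X.Pr) (T : Finset ℕ), GCond X c0 n Ds T →
      |∑ᶠ x : {x : cd.MPts T // cd.TypHN (cd.vec r0 Ds x) R ρ (N0 n)},
        totT cd H (cd.vec r0 Ds x.1) j| ≤ η' * Nat.card (cd.MPts T) := by
  obtain ⟨C1, hC1⟩ := hloc
  obtain ⟨C, hC⟩ := hfew R
  set B : ℝ := (C1 + 1) * ((2 : ℝ) ^ R) ^ (j + 1) with hB
  have hR1 : (1 : ℝ) ≤ (2 : ℝ) ^ R := one_le_pow₀ (by norm_num)
  have hB1 : 1 ≤ B := by
    have h1 : (1 : ℝ) ≤ ((2 : ℝ) ^ R) ^ (j + 1) := one_le_pow₀ hR1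
    have h2 : (0 : ℝ) ≤ C1 := Nat.cast_nonneg _
    rw [hB]
    nlinarith
  set K : ℝ := ((2 : ℝ) ^ R) ^ 2 with hK
  have hK0 : 0 < K := by positivity
  obtain ⟨η, ε', hη, hε', n3, hn3⟩ := avg_num (X := X) j hK0 hB1 hρ hη' hc0 C
  obtain ⟨n1, hn1⟩ := hG R η hη
  obtain ⟨n2, hn2⟩ := card_SmD_le cd hX hS hc r0 j ε' hε'
  refine ⟨max n1 (max n2 n3), fun n hn Ds T hg => ?_⟩
  have hnn1 : n1 ≤ n := le_trans (le_max_left _ _) hn
  have hnn2 : n2 ≤ n := le_trans (le_trans (le_max_left _ _) (le_max_right _ _)) hn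
  have hnn3 : n3 ≤ n := le_trans (le_trans (le_max_right _ _) (le_max_right _ _)) hn
  obtain ⟨hcpos, hneJ, hnum⟩ := hn3 n hnn3 Ds T hg
  have hMf : Finite (cd.MPts T) := cd.finite_MPts hX.fin T
  have hMF : Fintype (cd.MPts T) := Fintype.ofFinite _
  have hABF : Fintype (cd.CodeN (JG Ds T)) := Fintype.ofFinite _
  have hpv : ∀ x : cd.MPts T, cd.PVecN (cd.vec r0 Ds x) := fun x =>
    cd.pvec_vec r0 hg.large hg.sml x
  have hLx : ∀ x : cd.MPts T, cd.LFactsN (cd.vec r0 Ds x) := fun x =>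
    hL _ inferInstance hneJ _ (hpv x)
  have hHx : ∀ x : cd.MPts T, HFacts cd H (cd.vec r0 Ds x) := fun x =>
    hHF _ inferInstance hneJ _ (hpv x)
  have hdegx : ∀ x : cd.MPts T, cd.degN (cd.vec r0 Ds x) = n := fun x => by
    rw [cd.degN_vecL r0 x, hg.deg]
  let typ : cd.MPts T → Prop := fun x => cd.TypHN (cd.vec r0 Ds x) R ρ (N0 n)
  let cond : cd.CodeN (JG Ds T) → cd.MPts T → Prop := fun a x => CondT cd (cd.vec r0 Ds x) j a
  let gg : cd.CodeN (JG Ds T) → cd.MPts T → ℝ := fun a x => NTH cd H (cd.vec r0 Ds x) j a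
  let Sc : cd.CodeN (JG Ds T) → cd.MPts T → Set (Dir j ↪ JG Ds T) :=
    fun a x => ScT cd (cd.SelpN (cd.vec r0 Ds x)) (LH cd (cd.vec r0 Ds x))
      (cd.Lsp (cd.vec r0 Ds x) (N0 n)) j a
      {w | cd.ValidN (cd.vec r0 Ds x) w ∧ ∀ l, cd.InhN (cd.vec r0 Ds x) w a l}
  let E : (Dir j ↪ JG Ds T) → cd.MPts T → cd.MPts T → Prop := fun d x y =>
    TypEqH cd H d j j (cd.vec r0 Ds x) (cd.vec r0 Ds y)
  have hok : ∀ (x : cd.MPts T) (d : Dir j ↪ JG Ds T),
      (∀ i, d i ∈ cd.Lsp (cd.vec r0 Ds x) (N0 n)) → cd.DirOk (cd.vec r0 Ds x) d :=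
    fun x d hd => dirOk_of_lsp cd r0 hg x d hd
  have hA : AvgD cd Q r0 n Ds T j K B η C ((⌈ρ * Nat.card (JG Ds T)⌉₊ - (j + 2)) ^ (j + 2))
      (cd.CodeN (JG Ds T)) typ cond gg Sc E :=
    { refl := fun d x => TypEqH.refl d _
      symm := fun d x y h => h.symm
      trans := fun d a x ht hcd hd y y' z hy hy' hz h h' => by
        have h1 := frEq_of_sameB cd hfr (hok x d hd.1) hy hy' h.1
        have h2 := frEq_of_sameB cd hfr (hok x d hd.1) hy' hz h'.1
        exact TypEqH.trans le_rfl h1.selp h2.selp h h'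
      inv := fun d a x ht hcd hd y hy h => by
        have h1 := frEq_of_sameB cd hfr (hok x d hd.1) (SameB.refl cd) hy h.1
        have h2 : ∀ i, i ≤ j + 1 → LH cd (cd.vec r0 Ds x) i = LH cd (cd.vec r0 Ds y) i :=
          fun i hi => TypEqH.lh_eq le_rfl h1.selp h1.fn h (hHx x) (hHx y) (by omega)
        have ha : a ∈ cd.SelpN (cd.vec r0 Ds x) := lh_sub_selpN _ _ hcd.1.1
        have hW : {w | cd.ValidN (cd.vec r0 Ds x) w ∧ ∀ l, cd.InhN (cd.vec r0 Ds x) w a l} =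
            {w | cd.ValidN (cd.vec r0 Ds y) w ∧ ∀ l, cd.InhN (cd.vec r0 Ds y) w a l} :=
          Set.ext fun w => h1.w a ha w
        refine ⟨typHN_congr cd hc hy h1 ht, ?_, ?_⟩
        · change CondT cd (cd.vec r0 Ds y) j a
          refine ⟨⟨?_, hcd.1.2⟩, ?_⟩
          · rw [← h2 (j + 1) le_rfl]
            exact hcd.1.1
          · obtain ⟨w, hw⟩ := hcd.2
            exact ⟨w, (h1.w a ha w).1 hw⟩
        · exact (scT_congr cd h1.selp (fun i _ hi => h2 i (by omega))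
            (SameB.lsp cd hc hy (N0 n)) a hW).symm
      lsp := fun d a x ht hcd hd => hd.1
      few := fun d a x ht hcd hd =>
        few_block r0 hC x d (dir_inr r0 hg.sml hd.1) (hok x d hd.1) ht.typ.small
      sc := fun a x ht hcd => by
        obtain ⟨Bs⟩ := (hHx x).basisT j hj a hcd.1.1 hcd.1.2
        exact card_ScT_ge cd hS ht Bs hcd.2
      bd := fun a x ht => (abs_NTH_le (hHx x) j a).trans
        (card_isPr_le (hpv x) (hLx x) (fun i => hC1 _ inferInstance _ (hpv x) i) ht.typ le_rfl)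
      num := fun x ht => card_condT_le ht.typ j
      blk := fun d a x ht hcd hd hbig => by
        have hdt := dir_inr r0 hg.sml hd.1
        obtain ⟨hd1, w, hw, hsupp⟩ := hd
        have h1 := hn1 _ inferInstance (cd.vec r0 Ds x) a w d (hok x d hd1)
          (by rw [hdegx]; exact hnn1) ht.typ.small hw.1 hw.2 hcd.1.1 hsupp hbig
        rw [block_sum r0 x d hdt (fun p' => TypEqH cd H d j j (cd.vec r0 Ds x) p')
          (fun p' => NTH cd H p' j a), ← card_block r0 x d hdt] at h1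
        exact h1 }
  have hmain := avg_grid cd r0 hK0.le hB1 hη.le hcpos hg.sml
    (fun d => hn2 n hnn2 Ds T hg.few hg.large d) hA
  have hsum : ∑ᶠ x : {x : cd.MPts T // cd.TypHN (cd.vec r0 Ds x) R ρ (N0 n)},
        totT cd H (cd.vec r0 Ds x.1) j =
      ∑ x, if typ x then ∑ a, (if cond a x then gg a x else 0) else 0 := by
    have h1 : ∀ x : cd.MPts T, (if typ x then ∑ a, (if cond a x then gg a x else 0) else 0) =
        if typ x then totT cd H (cd.vec r0 Ds x) j else 0 := by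
      intro x
      by_cases ht : typ x
      · rw [if_pos ht, if_pos ht]
        unfold totT
        rw [finsum_eq_sum_of_fintype]
        refine Finset.sum_congr rfl fun a _ => ?_
        by_cases h2 : cond a x
        · rw [if_pos h2, if_pos h2.1]
        · rw [if_neg h2]
          by_cases h3 : a ∈ LH cd (cd.vec r0 Ds x) (j + 1) ∧ ∀ z, a ≠ cd.kapN (JG Ds T) z
          · rw [if_pos h3]
            exact ((hHx x).zero j hj a h3.1 fun h4 => h2 ⟨h3, h4⟩).symm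
          · rw [if_neg h3]
      · rw [if_neg ht, if_neg ht]
    rw [Finset.sum_congr rfl fun x _ => h1 x, ← Finset.sum_filter, finsum_eq_sum_of_fintype]
    have h4 : ∀ y : cd.MPts T, y ∈ Finset.univ.filter (fun x : cd.MPts T => typ x) ↔
        cd.TypHN (cd.vec r0 Ds y) R ρ (N0 n) := fun _ =>
      ⟨fun h => (Finset.mem_filter.1 h).2, fun h => Finset.mem_filter.2 ⟨Finset.mem_univ _, h⟩⟩
    exact (Finset.sum_subtype _ h4 (fun x => totT cd H (cd.vec r0 Ds x) j)).symm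
  rw [hsum]
  exact hmain.trans (mul_le_mul_of_nonneg_right hnum (Nat.cast_nonneg _))

end level

end Pool.Agent.SmNH
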