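import Pool.Agent.Lib.SmNH.L.LevelA

/-!
# HEIGHTS over SMITH-U, block L: the recursion and Markov's inequality on a grid
-/

set_option autoImplicit false

open Finset

namespace Pool.Agent.SmNH

open Pool.Agent.SmN Pool.Agent.SmN.CData

variable {G V V1 Pl M : Type} [Group G] [AddCommGroup V] [DistribMulAction G V]
  [AddCommGroup V1] [Module (ZMod 2) V1] [AddCommGroup M] [DistribMulAction G M]
  {S : Sys G V V1 Pl} {X : PSys} (cd : CData S X) (H : HData V M Pl)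

/-- The recursion, normalised. -/
theorem recur_H {J : Type} [Fintype J] {p : J → cd.Mk} (h : HFacts cd H p) {i : ℕ} (hi : 1 ≤ i)
    {N : ℝ} (hN : N = Nat.card V1) (hN0 : 0 < N) :
    (nH S H (cd.chiN p) (i + 1) : ℝ) / N ^ (i + 1) ≤ (nH S H (cd.chiN p) i : ℝ) / N ^ i +
      (1 / 2 * totA cd H p i + 1 / 2 * totT cd H p i) / N ^ (i + 1) := by
  have h1 : (nH S H (cd.chiN p) (i + 1) : ℝ) ≤ N * nH S H (cd.chiN p) i +
      (1 / 2 * totA cd H p i + 1 / 2 * totT cd H p i) := by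
    rw [hN, ← add_assoc]
    exact h.recur i hi
  calc (nH S H (cd.chiN p) (i + 1) : ℝ) / N ^ (i + 1)
      ≤ (N * nH S H (cd.chiN p) i + (1 / 2 * totA cd H p i + 1 / 2 * totT cd H p i)) /
        N ^ (i + 1) := div_le_div_of_nonneg_right h1 (by positivity)
    _ = _ := by
        rw [pow_succ]
        field_simp

/-- A linear recursion. -/
theorem recursion_one {D : Type} (s : Finset D) (Sf I : ℕ → D → ℝ) (δ B : ℝ)
    (m : ℕ) (hm : 1 ≤ m)
    (hrec : ∀ j, 1 ≤ j → j < m → ∀ x ∈ s, Sf (j + 1) x ≤ Sf j x + I j x)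
    (hI : ∀ j, 1 ≤ j → j < m → ∑ x ∈ s, I j x ≤ δ) (h1 : ∀ x ∈ s, Sf 1 x ≤ B) :
    ∑ x ∈ s, Sf m x ≤ s.card * B + (m - 1 : ℕ) * δ := by
  have key : ∀ j, 1 ≤ j → j ≤ m → ∑ x ∈ s, Sf j x ≤ s.card * B + (j - 1 : ℕ) * δ := by
    intro j hj
    induction j, hj using Nat.le_induction with
    | base =>
      intro _
      have : ∑ x ∈ s, Sf 1 x ≤ s.card * B := by
        refine le_trans (Finset.sum_le_sum h1) ?_
        rw [Finset.sum_const, nsmul_eq_mul]
      simpa using this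
    | succ j hj ih =>
      intro hjm
      have h2 := ih (by omega)
      have h3 : ∑ x ∈ s, Sf (j + 1) x ≤ ∑ x ∈ s, Sf j x + ∑ x ∈ s, I j x := by
        rw [← Finset.sum_add_distrib]
        exact Finset.sum_le_sum (hrec j hj (by omega))
      have h4 := hI j hj (by omega)
      obtain ⟨i, rfl⟩ := Nat.exists_eq_add_of_le hj
      rw [show 1 + i + 1 - 1 = i + 1 by omega]
      rw [show 1 + i - 1 = i by omega] at h2
      push_cast
      linarith
  exact key m hm le_rfl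

open Classical in
theorem markov_H {D : Type} (s : Finset D) (P : D → Prop) (f : D → ℝ) (hf : ∀ x ∈ s, 0 ≤ f x)
    (c : ℝ) (hP : ∀ x ∈ s, P x → c ≤ f x) : ((s.filter P).card : ℝ) * c ≤ ∑ x ∈ s, f x := by
  rw [← nsmul_eq_mul, ← Finset.sum_const]
  refine (Finset.sum_le_sum (g := f) fun x hx => ?_).trans
    (Finset.sum_le_sum_of_subset_of_nonneg (Finset.filter_subset _ _) fun x hx _ => hf x hx)
  exact hP x (Finset.mem_filter.1 hx).1 (Finset.mem_filter.1 hx).2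

open Classical in
/-- Almost all points of every nice grid have no element with `q = 0` of level `s`. -/
theorem grid_mainH [Finite V1] [Nontrivial V1] {Q : ℕ} (hX : X.Ok Q) (hS : S.Ok) (hc : cd.Ok)
    (r0 : {g : G // g ∈ cd.R})
    (hL : ∀ (J : Type) (_ : Fintype J) (_ : Nonempty J) (p : J → cd.Mk), cd.PVecN p →
      cd.LFactsN p)
    (hHF : ∀ (J : Type) (_ : Fintype J) (_ : Nonempty J) (p : J → cd.Mk), cd.PVecN p →
      HFacts cd H p)
    (hfr : FrameRThm cd) (hloc : LocBound cd)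
    (hfA : ∀ j, 1 ≤ j → FewTyp cd H j (j - 1)) (hfT : ∀ j, 1 ≤ j → FewTyp cd H j j)
    (hGA : ∀ j, 1 ≤ j → GridThmA cd H Q j) (hGT : ∀ j, 1 ≤ j → GridThmT cd H Q j)
    (c0 : ℝ) (hc0 : 0 < c0) (hJ : cd.JHThm c0 r0) (ε : ℝ) (hε : 0 < ε) :
    ∃ δ : ℝ, 0 < δ ∧ ∃ s₁ : ℕ, ∀ s ≥ s₁, ∃ n₀ : ℕ, ∀ n ≥ n₀, ∀ (Ds : Finset X.Pr)
      (T : Finset ℕ), GrNH X c0 δ n Ds T →
      (Nat.card {x : cd.MPts T // ∃ y, IsZ S H (cd.chiN (cd.vec r0 Ds x)) s y} : ℝ) ≤
        ε * Nat.card (cd.MPts T) := by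
  obtain ⟨R, ρ, δ, hρ, hδ, nJ, hJ1⟩ := hJ (ε / 2) (by positivity)
  refine ⟨δ, hδ, ?_⟩
  obtain ⟨C1, hC1⟩ := id hloc
  set B : ℝ := (C1 + 1) * ((2 : ℝ) ^ R) ^ 1 with hB
  have hB0 : 0 < B := by positivity
  obtain ⟨s₁, hs₁⟩ : ∃ s₁ : ℕ, ∀ s ≥ s₁, (1 / 2 : ℝ) ^ s * (2 * (B + 1)) ≤ ε / 2 := by
    have h1 : 0 < ε / 2 / (2 * (B + 1)) := by positivity
    obtain ⟨s₁, hs₁⟩ := exists_pow_lt_of_lt_one h1 (by norm_num : (1 / 2 : ℝ) < 1)
    refine ⟨s₁, fun s hs => ?_⟩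
    have h3 : (1 / 2 : ℝ) ^ s ≤ (1 / 2) ^ s₁ :=
      pow_le_pow_of_le_one (by norm_num) (by norm_num) hs
    have h4 : (1 / 2 : ℝ) ^ s ≤ ε / 2 / (2 * (B + 1)) := h3.trans hs₁.le
    rwa [le_div_iff₀ (by positivity)] at h4
  refine ⟨max s₁ 1, fun s hs => ?_⟩
  have hs1 : 1 ≤ s := le_trans (le_max_right _ _) hs
  have hsε := hs₁ s (le_trans (le_max_left _ _) hs)
  have hs0 : (0 : ℝ) < s := by exact_mod_cast hs1
  have hη : (0 : ℝ) < 1 / s := by positivity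
  have hlev : ∀ j : ℕ, ∃ n₀ : ℕ, 1 ≤ j → ∀ n ≥ n₀, ∀ (Ds : Finset X.Pr) (T : Finset ℕ),
      GCond X c0 n Ds T →
      |∑ᶠ x : {x : cd.MPts T // cd.TypHN (cd.vec r0 Ds x) R ρ (N0 n)},
        totA cd H (cd.vec r0 Ds x.1) j| ≤ 1 / s * Nat.card (cd.MPts T) ∧
      |∑ᶠ x : {x : cd.MPts T // cd.TypHN (cd.vec r0 Ds x) R ρ (N0 n)},
        totT cd H (cd.vec r0 Ds x.1) j| ≤ 1 / s * Nat.card (cd.MPts T) := by
    intro j
    by_cases hj : 1 ≤ j
    · obtain ⟨nA, hA⟩ := level_sumA cd H hX hS hc r0 hL hHF hfr hloc j hj (hfA j hj) (hGA j hj)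
        c0 hc0 R ρ hρ (1 / s) hη
      obtain ⟨nT, hT⟩ := level_sumT cd H hX hS hc r0 hL hHF hfr hloc j hj (hfT j hj) (hGT j hj)
        c0 hc0 R ρ hρ (1 / s) hη
      exact ⟨max nA nT, fun _ n hn Ds T hg => ⟨hA n (le_trans (le_max_left _ _) hn) Ds T hg,
        hT n (le_trans (le_max_right _ _) hn) Ds T hg⟩⟩
    · exact ⟨0, fun h => absurd h hj⟩
  choose nlev hnlev using hlev
  obtain ⟨n3, hn3⟩ : ∃ n3 : ℕ, ∀ n ≥ n3, 1 ≤ c0 * Real.log n := by
    have h1 : Filter.Tendsto (fun n : ℕ => c0 * Real.log n) Filter.atTop Filter.atTop :=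
      (Real.tendsto_log_atTop.comp tendsto_natCast_atTop_atTop).const_mul_atTop hc0
    exact Filter.eventually_atTop.1 (h1.eventually_ge_atTop _)
  refine ⟨max (max nJ ((Finset.range s).sup nlev)) n3, fun n hn Ds T hgr => ?_⟩
  have hnJ : nJ ≤ n := le_trans (le_trans (le_max_left _ _) (le_max_left _ _)) hn
  have hnlev' : ∀ j, j < s → nlev j ≤ n := fun j hj =>
    le_trans (Finset.le_sup (f := nlev) (Finset.mem_range.2 hj))
      (le_trans (le_trans (le_max_right _ _) (le_max_left _ _)) hn)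
  have hn3' : 1 ≤ c0 * Real.log n := hn3 n (le_trans (le_max_right _ _) hn)
  have hTc : c0 * Real.log n ≤ T.card := hgr.gr.many.trans (by
    exact_mod_cast Finset.card_le_card (Finset.filter_subset _ _))
  have hg : GCond X c0 n Ds T := ⟨hgr.gr.deg, hgr.gr.few, hgr.gr.large, hgr.gr.sml, hTc⟩
  have hTpos : 0 < T.card := by
    have : (0 : ℝ) < T.card := by linarith
    exact_mod_cast this
  have hneJ : Nonempty (JG Ds T) := by
    obtain ⟨t, ht⟩ := Finset.card_pos.1 hTpos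
    exact ⟨Sum.inr ⟨t, ht⟩⟩
  have hMf : Finite (cd.MPts T) := cd.finite_MPts hX.fin T
  have hMF : Fintype (cd.MPts T) := Fintype.ofFinite _
  have hpv : ∀ x : cd.MPts T, cd.PVecN (cd.vec r0 Ds x) := fun x =>
    cd.pvec_vec r0 hg.large hg.sml x
  have hLx : ∀ x : cd.MPts T, cd.LFactsN (cd.vec r0 Ds x) := fun x =>
    hL _ inferInstance hneJ _ (hpv x)
  have hHx : ∀ x : cd.MPts T, HFacts cd H (cd.vec r0 Ds x) := fun x =>
    hHF _ inferInstance hneJ _ (hpv x)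
  set Y : ℝ := ((Nat.card (cd.MPts T) : ℕ) : ℝ) with hY
  have hY0 : 0 ≤ Y := Nat.cast_nonneg _
  set N : ℝ := ((Nat.card V1 : ℕ) : ℝ) with hN
  have hN1 : 1 ≤ N := by
    have : 0 < Nat.card V1 := Nat.card_pos
    have h2 : (1 : ℕ) ≤ Nat.card V1 := this
    rw [hN]
    exact_mod_cast h2
  have hN0 : 0 < N := by linarith
  set sf : Finset (cd.MPts T) := Finset.univ.filter fun x =>
    cd.TypHN (cd.vec r0 Ds x) R ρ (N0 n) with hsf
  have hscard : (sf.card : ℝ) ≤ Y := by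
    rw [hY, Nat.card_eq_fintype_card]
    exact_mod_cast Finset.card_le_univ sf
  have hatyp : (Nat.card {x : cd.MPts T // ¬ cd.TypHN (cd.vec r0 Ds x) R ρ (N0 n)} : ℝ) ≤
      ε / 2 * Y := hJ1 n hnJ Ds T hgr
  have hfin : ∀ (x : cd.MPts T) (j : ℕ), Finite {y : (G → V) × (Pl → V) //
      IsZ S H (cd.chiN (cd.vec r0 Ds x)) j y} := fun x j => by
    have := (hHx x).fin j
    exact Finite.of_injective (β := {y : (G → V) × (Pl → V) //
      IsPr S (cd.chiN (cd.vec r0 Ds x)) j y}) (fun y => ⟨y.1, y.2.pr⟩)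
      fun y y' h => Subtype.ext (congrArg (fun z => z.1) h)
  -- sums over the typical points
  have hsub : ∀ f : cd.MPts T → ℝ, ∑ x ∈ sf, f x =
      ∑ᶠ x : {x : cd.MPts T // cd.TypHN (cd.vec r0 Ds x) R ρ (N0 n)}, f x.1 := by
    intro f
    rw [finsum_eq_sum_of_fintype]
    have h4 : ∀ y : cd.MPts T, y ∈ sf ↔ cd.TypHN (cd.vec r0 Ds y) R ρ (N0 n) := fun y =>
      ⟨fun h => (Finset.mem_filter.1 h).2, fun h =>
        Finset.mem_filter.2 ⟨Finset.mem_univ _, h⟩⟩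
    exact Finset.sum_subtype sf h4 f
  -- the recursion
  have hrec := recursion_one sf
    (fun j x => (nH S H (cd.chiN (cd.vec r0 Ds x)) j : ℝ) / N ^ j)
    (fun j x => (1 / 2 * totA cd H (cd.vec r0 Ds x) j + 1 / 2 * totT cd H (cd.vec r0 Ds x) j) /
      N ^ (j + 1)) (1 / s * Y) B s hs1
    (fun j hj1 hj2 x hx => recur_H cd H (hHx x) hj1 hN hN0)
    (fun j hj1 hj2 => by
      rw [← Finset.sum_div, Finset.sum_add_distrib, ← Finset.mul_sum, ← Finset.mul_sum,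
        hsub, hsub]
      obtain ⟨h1, h2⟩ := hnlev j hj1 n (hnlev' j hj2) Ds T hg
      have h1' := (le_abs_self _).trans h1
      have h2' := (le_abs_self _).trans h2
      have h5 : (1 : ℝ) ≤ N ^ (j + 1) := one_le_pow₀ hN1
      have h6 : 0 ≤ 1 / s * Y := by positivity
      rw [div_le_iff₀ (by positivity)]
      calc _ ≤ 1 / 2 * (1 / s * Y) + 1 / 2 * (1 / s * Y) := by
            refine add_le_add ?_ ?_
            · exact mul_le_mul_of_nonneg_left h1' (by norm_num)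
            · exact mul_le_mul_of_nonneg_left h2' (by norm_num)
        _ = 1 / s * Y := by ring
        _ ≤ 1 / s * Y * N ^ (j + 1) := le_mul_of_one_le_right h6 h5)
    (fun x hx => by
      rw [pow_one]
      have ht : cd.TypHN (cd.vec r0 Ds x) R ρ (N0 n) := (Finset.mem_filter.1 hx).2
      have h1 := card_isPr_le (hpv x) (hLx x) (fun i => hC1 _ inferInstance _ (hpv x) i) ht.typ
        (le_refl 1)
      have h2 : (nH S H (cd.chiN (cd.vec r0 Ds x)) 1 : ℝ) ≤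
          Nat.card {y : (G → V) × (Pl → V) // IsPr S (cd.chiN (cd.vec r0 Ds x)) 1 y} := by
        have := (hHx x).fin 1
        have h3 : nH S H (cd.chiN (cd.vec r0 Ds x)) 1 ≤
            Nat.card {y : (G → V) × (Pl → V) // IsPr S (cd.chiN (cd.vec r0 Ds x)) 1 y} :=
          Nat.card_le_card_of_injective (fun y => ⟨y.1, y.2.pr⟩)
            fun y y' h => Subtype.ext (congrArg (fun z => z.1) h)
        exact_mod_cast h3
      exact (div_le_self (Nat.cast_nonneg _) hN1).trans (h2.trans h1))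
  have htot : ∑ x ∈ sf, (nH S H (cd.chiN (cd.vec r0 Ds x)) s : ℝ) / N ^ s ≤ (B + 1) * Y := by
    refine hrec.trans ?_
    have h1 : (sf.card : ℝ) * B ≤ B * Y := by
      rw [mul_comm]
      exact mul_le_mul_of_nonneg_left hscard hB0.le
    have h2 : ((s - 1 : ℕ) : ℝ) * (1 / s * Y) ≤ Y := by
      have h3 : ((s - 1 : ℕ) : ℝ) ≤ s := by exact_mod_cast Nat.sub_le s 1
      have h4 : 0 ≤ 1 / (s : ℝ) * Y := by positivity
      calc ((s - 1 : ℕ) : ℝ) * (1 / s * Y) ≤ s * (1 / s * Y) :=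
            mul_le_mul_of_nonneg_right h3 h4
        _ = Y := by field_simp
    linarith
  have hmar := markov_H sf (fun x => ∃ y, IsZ S H (cd.chiN (cd.vec r0 Ds x)) s y)
    (fun x => (nH S H (cd.chiN (cd.vec r0 Ds x)) s : ℝ) / N ^ s)
    (fun x _ => by positivity) ((2 : ℝ) ^ (s - 1)) (fun x hx hex => by
      have h1 := (hHx x).many s hs1 hex
      rw [le_div_iff₀ (by positivity), hN]
      exact_mod_cast h1)
  have hbad : ((sf.filter fun x => ∃ y, IsZ S H (cd.chiN (cd.vec r0 Ds x)) s y).card : ℝ) ≤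
      ε / 2 * Y := by
    have h1 := hmar.trans htot
    have h2 : (0 : ℝ) < 2 ^ (s - 1) := by positivity
    have h3 : ((sf.filter fun x => ∃ y, IsZ S H (cd.chiN (cd.vec r0 Ds x)) s y).card : ℝ) ≤
        (B + 1) * Y / 2 ^ (s - 1) := by
      rw [le_div_iff₀ h2]
      exact h1
    have h4 : (B + 1) * Y / 2 ^ (s - 1) = (1 / 2 : ℝ) ^ s * (2 * (B + 1)) * Y := by
      have h5 : (2 : ℝ) ^ s = 2 ^ (s - 1) * 2 := by
        rw [← pow_succ, Nat.sub_add_cancel hs1]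
      rw [one_div, inv_pow, h5]
      field_simp
    rw [h4] at h3
    exact h3.trans (mul_le_mul_of_nonneg_right hsε hY0)
  have hle : Nat.card {x : cd.MPts T // ∃ y, IsZ S H (cd.chiN (cd.vec r0 Ds x)) s y} ≤
      Nat.card {x : cd.MPts T // ¬ cd.TypHN (cd.vec r0 Ds x) R ρ (N0 n)} +
        (sf.filter fun x => ∃ y, IsZ S H (cd.chiN (cd.vec r0 Ds x)) s y).card := by
    refine card_le_add _ _ _ fun x hx' => ?_
    by_cases ht : cd.TypHN (cd.vec r0 Ds x) R ρ (N0 n)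
    · right
      exact Finset.mem_filter.2 ⟨Finset.mem_filter.2 ⟨Finset.mem_univ _, ht⟩, hx'⟩
    · exact Or.inl ht
  calc (Nat.card {x : cd.MPts T // ∃ y, IsZ S H (cd.chiN (cd.vec r0 Ds x)) s y} : ℝ)
      ≤ (Nat.card {x : cd.MPts T // ¬ cd.TypHN (cd.vec r0 Ds x) R ρ (N0 n)} : ℝ) +
        ((sf.filter fun x => ∃ y, IsZ S H (cd.chiN (cd.vec r0 Ds x)) s y).card : ℝ) := by
          exact_mod_cast hle
    _ ≤ ε / 2 * Y + ε / 2 * Y := add_le_add hatyp hbad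
    _ = ε * Y := by ring

end Pool.Agent.SmNH
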