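import Pool.Agent.Lib.SmNH.L.Iso
import Pool.Agent.Lib.SmN.L.Emb

/-!
# HEIGHTS over SMITH-U, block L: the number of the admissible choices of the directions
-/

set_option autoImplicit false

open Finset

namespace Pool.Agent.SmNH

open Pool.Agent.SmN Pool.Agent.SmN.CData

variable {G V V1 Pl M : Type} [Group G] [AddCommGroup V] [DistribMulAction G V]
  [AddCommGroup V1] [Module (ZMod 2) V1] [AddCommGroup M] [DistribMulAction G M]
  {S : Sys G V V1 Pl} {X : PSys} (cd : CData S X) {J : Type}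

/-- The admissible choices of the directions for Theorem A. -/
def ScA (F : Set (cd.CodeN J)) (L : ℕ → Set (cd.CodeN J)) (A : Set J) (m : ℕ)
    (a b : cd.CodeN J) : Set (Dir m ↪ J) :=
  {dir | (∀ i, dir i ∈ A) ∧ Nonempty (cd.SuppN F L m a b dir)}

/-- The admissible choices of the directions for Theorem T; `W` is the set of the codes `w`. -/
def ScT (F : Set (cd.CodeN J)) (L : ℕ → Set (cd.CodeN J)) (A : Set J) (m : ℕ)
    (a : cd.CodeN J) (W : Set (cd.CodeN J)) : Set (Dir m ↪ J) :=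
  {dir | (∀ i, dir i ∈ A) ∧ ∃ w ∈ W, Nonempty (SuppT cd F L m a w dir)}

theorem basN_congr {F F' : Set (cd.CodeN J)} {L L' : ℕ → Set (cd.CodeN J)} {m : ℕ}
    {a b : cd.CodeN J} {dir : Dir m ↪ J} (hF : F = F') (h : ∀ i, 1 ≤ i → i ≤ m → L i = L' i)
    (hs : Nonempty (cd.SuppN F L m a b dir)) : Nonempty (cd.SuppN F' L' m a b dir) := by
  subst hF
  obtain ⟨s⟩ := hs
  exact ⟨{ s with
    adapted := fun i h1 h2 x hx => by
      have h3 := s.adapted i h1 h2 x (by rw [h i h1 h2]; exact hx)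
      rw [h i h1 h2] at h3
      exact h3 }⟩

theorem scA_congr {F F' : Set (cd.CodeN J)} {L L' : ℕ → Set (cd.CodeN J)} {m : ℕ}
    (hF : F = F') (h : ∀ i, 1 ≤ i → i ≤ m → L i = L' i) {A A' : Set J} (hA : A = A')
    (a b : cd.CodeN J) : ScA cd F L A m a b = ScA cd F' L' A' m a b := by
  subst hA
  ext dir
  exact ⟨fun ⟨h1, h2⟩ => ⟨h1, basN_congr cd hF h h2⟩,
    fun ⟨h1, h2⟩ => ⟨h1, basN_congr cd hF.symm (fun i hi hi' => (h i hi hi').symm) h2⟩⟩

theorem suppT_congr {F F' : Set (cd.CodeN J)} {L L' : ℕ → Set (cd.CodeN J)} {m : ℕ}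
    {a w : cd.CodeN J} {dir : Dir m ↪ J} (hF : F = F') (h : ∀ i, 1 ≤ i → i ≤ m → L i = L' i)
    (hs : Nonempty (SuppT cd F L m a w dir)) : Nonempty (SuppT cd F' L' m a w dir) := by
  subst hF
  obtain ⟨s⟩ := hs
  exact ⟨{ s with
    adapted := fun i h1 h2 x hx => by
      have h3 := s.adapted i h1 h2 x (by rw [h i h1 h2]; exact hx)
      rw [h i h1 h2] at h3
      exact h3 }⟩

theorem scT_congr {F F' : Set (cd.CodeN J)} {L L' : ℕ → Set (cd.CodeN J)} {m : ℕ}
    (hF : F = F') (h : ∀ i, 1 ≤ i → i ≤ m → L i = L' i) {A A' : Set J} (hA : A = A')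
    (a : cd.CodeN J) {W W' : Set (cd.CodeN J)} (hW : W = W') :
    ScT cd F L A m a W = ScT cd F' L' A' m a W' := by
  subst hA hW
  ext dir
  exact ⟨fun ⟨h1, w, hw, h2⟩ => ⟨h1, w, hw, suppT_congr cd hF h h2⟩,
    fun ⟨h1, w, hw, h2⟩ => ⟨h1, w, hw, suppT_congr cd hF.symm
      (fun i hi hi' => (h i hi hi').symm) h2⟩⟩

theorem exists_pair [Nontrivial V1] (hS : S.Ok) : ∃ e e' : V1, S.e e e' = 1 := by
  obtain ⟨e, he0⟩ := exists_ne (0 : V1)
  refine ⟨e, ?_⟩
  by_contra h
  push Not at h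
  apply he0
  apply hS.e_nondeg
  intro y
  have h1 : ∀ a : ZMod 2, a ≠ 1 → a = 0 := by decide
  exact h1 _ (h y)

variable [Fintype J]

/-- **The number of the admissible choices of the directions**, Theorem A. -/
theorem card_ScA_ge [Nontrivial V1] (hS : S.Ok) {p : J → cd.Mk}
    {R N m : ℕ} {ρ : ℝ} (ht : cd.TypN p R ρ N) {L : ℕ → Set (cd.CodeN J)}
    {a b : cd.CodeN J} (B : cd.BasN (cd.SelpN p) L m a b) :
    (⌈ρ * Nat.card J⌉₊ - (m + 2)) ^ (m + 2) ≤
      Nat.card (ScA cd (cd.SelpN p) L (cd.Lsp p N) m a b) := by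
  classical
  obtain ⟨e, e', hpair⟩ := exists_pair hS
  have hgen := ht.generic B.r B.c B.mem (fun α hα => B.indep α hα.choose hα.choose_spec)
  let W : Dir m → Fin B.r → V1 := fun x => match x with
    | none => fun l => if l = B.l0 then e' else 0
    | some none => fun l => if l = B.l1 then e else 0
    | some (some _) => fun _ => 0
  let A : Dir m → Set J := fun x => {j | j ∈ cd.Lsp p N ∧ ∀ l, (B.c l).2 j = W x l}
  have hA : ∀ x, ⌈ρ * Nat.card J⌉₊ ≤ Nat.card (A x) := fun x => Nat.ceil_le.mpr (by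
    refine (hgen (W x)).trans (le_of_eq ?_)
    congr 1
    exact Nat.card_congr (Equiv.subtypeEquivRight fun j =>
      ⟨fun ⟨h1, h2, h3⟩ => ⟨⟨h1, h2⟩, h3⟩, fun ⟨⟨h1, h2⟩, h3⟩ => ⟨h1, h2, h3⟩⟩))
  have h1 := card_emb_ge A _ hA
  have h2 : Fintype.card (Dir m) = m + 2 := by
    rw [Fintype.card_option, Fintype.card_option, Fintype.card_fin]
  rw [h2] at h1
  refine h1.trans ?_
  refine Nat.card_le_card_of_injective (fun f => (⟨f.1, fun i => (f.2 i).1, ⟨{
    r := B.r
    c := B.c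
    l1 := B.l1
    l0 := B.l0
    e := e
    e' := e'
    ne := B.ne
    c_l1 := B.c_l1
    mem := B.mem
    span := B.span
    indep := B.indep
    adapted := B.adapted
    β := B.β
    b_eq := B.b_eq
    β_l1 := B.β_l1
    β_l0 := B.β_l0
    supp0 := fun l i => (f.2 (some (some i))).2 l
    suppa := fun l => (f.2 (some none)).2 l
    suppb := fun l => (f.2 none).2 l
    pair := hpair }⟩⟩ : ScA cd (cd.SelpN p) L (cd.Lsp p N) m a b)) ?_
  intro f g h
  have h3 : f.1 = g.1 := congrArg (fun z : ScA cd (cd.SelpN p) L (cd.Lsp p N) m a b => z.1) h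
  exact Subtype.ext h3

/-- Patterns of a basis and of a solution `w` of the inhomogeneous system. -/
theorem genericT {p : J → cd.Mk} {R N m : ℕ} {ρ : ℝ} (ht : cd.TypHN p R ρ N)
    {L : ℕ → Set (cd.CodeN J)} {a w : cd.CodeN J} (B : BasT cd (cd.SelpN p) L m a)
    (hv : cd.ValidN p w) (hw : ∀ l, cd.InhN p w a l) (v : Fin B.r → V1) (v' : V1) :
    ρ * Nat.card J ≤ Nat.card {j : J // j ∈ cd.Lsp p N ∧ (∀ i, (B.c i).2 j = v i) ∧
      w.2 j = v'} := by
  classical
  obtain ⟨r, c, l1, c_l1, mem, span, indep, adapted⟩ := B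
  simp only at v ⊢
  obtain ⟨r, rfl⟩ : ∃ r', r = r' + 1 := ⟨r - 1, by have := l1.2; omega⟩
  set σ : Equiv.Perm (Fin (r + 1)) := Equiv.swap 0 l1 with hσ
  have hσ0 : σ 0 = l1 := Equiv.swap_apply_left _ _
  have h1 := ht.genericH r (fun i => c (σ i)) w (fun i => mem _) (by
    rintro α ⟨z, hz⟩
    have h2 : ∑ i, α (σ.symm i) • c i = cd.kapN J z := by
      rw [← hz, ← Equiv.sum_comp σ]
      exact Finset.sum_congr rfl fun i _ => by rw [Equiv.symm_apply_apply]
    have h3 := indep (fun i => α (σ.symm i)) z h2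
    funext i
    have h4 := congrFun h3 (σ i)
    simp only [Equiv.symm_apply_apply] at h4
    exact h4) hv (by
    intro l
    rw [hσ0, c_l1]
    exact hw l) (fun i => v (σ i)) v'
  refine h1.trans (le_of_eq ?_)
  congr 1
  refine Nat.card_congr (Equiv.subtypeEquivRight fun j => ?_)
  constructor
  · rintro ⟨h2, h3, h4, h5⟩
    refine ⟨⟨h2, h3⟩, fun i => ?_, h5⟩
    have h6 := h4 (σ.symm i)
    rw [Equiv.apply_symm_apply] at h6
    exact h6
  · rintro ⟨⟨h2, h3⟩, h4, h5⟩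
    exact ⟨h2, h3, fun i => h4 _, h5⟩

/-- **The number of the admissible choices of the directions**, Theorem T. -/
theorem card_ScT_ge [Nontrivial V1] (hS : S.Ok) {p : J → cd.Mk}
    {R N m : ℕ} {ρ : ℝ} (ht : cd.TypHN p R ρ N) {L : ℕ → Set (cd.CodeN J)}
    {a : cd.CodeN J} (B : BasT cd (cd.SelpN p) L m a)
    (hw : ∃ w, cd.ValidN p w ∧ ∀ l, cd.InhN p w a l) :
    (⌈ρ * Nat.card J⌉₊ - (m + 2)) ^ (m + 2) ≤
      Nat.card (ScT cd (cd.SelpN p) L (cd.Lsp p N) m a
        {w | cd.ValidN p w ∧ ∀ l, cd.InhN p w a l}) := by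
  classical
  obtain ⟨w, hv, hw⟩ := hw
  obtain ⟨e, e', hpair⟩ := exists_pair hS
  have hgen := genericT cd ht B hv hw
  let W : Dir m → Fin B.r → V1 := fun x => match x with
    | none => fun _ => 0
    | some none => fun l => if l = B.l1 then e else 0
    | some (some _) => fun _ => 0
  let W' : Dir m → V1 := fun x => match x with
    | none => e'
    | some _ => 0
  let A : Dir m → Set J := fun x => {j | j ∈ cd.Lsp p N ∧ (∀ l, (B.c l).2 j = W x l) ∧
    w.2 j = W' x}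
  have hA : ∀ x, ⌈ρ * Nat.card J⌉₊ ≤ Nat.card (A x) := fun x =>
    Nat.ceil_le.mpr (hgen (W x) (W' x))
  have h1 := card_emb_ge A _ hA
  have h2 : Fintype.card (Dir m) = m + 2 := by
    rw [Fintype.card_option, Fintype.card_option, Fintype.card_fin]
  rw [h2] at h1
  refine h1.trans ?_
  refine Nat.card_le_card_of_injective (fun f => (⟨f.1, fun i => (f.2 i).1, w, ⟨hv, hw⟩, ⟨{
    r := B.r
    c := B.c
    l1 := B.l1
    c_l1 := B.c_l1
    mem := B.mem
    span := B.span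
    indep := B.indep
    adapted := B.adapted
    e := e
    e' := e'
    supp0 := fun l i => (f.2 (some (some i))).2.1 l
    suppa := fun l => (f.2 (some none)).2.1 l
    suppb := fun l => (f.2 none).2.1 l
    w0 := fun i => (f.2 (some (some i))).2.2
    wa := (f.2 (some none)).2.2
    wb := (f.2 none).2.2
    pair := hpair }⟩⟩ : ScT cd (cd.SelpN p) L (cd.Lsp p N) m a
        {w | cd.ValidN p w ∧ ∀ l, cd.InhN p w a l})) ?_
  intro f g h
  have h3 : f.1 = g.1 := congrArg (fun z : ScT cd (cd.SelpN p) L (cd.Lsp p N) m a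
        {w | cd.ValidN p w ∧ ∀ l, cd.InhN p w a l} => z.1) h
  exact Subtype.ext h3

end Pool.Agent.SmNH
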